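import Pool.Agent.N375.RF.Stm

/-!
# Project RF: the generalised Cayley formula
-/

set_option autoImplicit false

namespace Pool.Agent.N475.RFCayley

open Finset Classical
open Pool.Agent.N375.RF

variable {V : Type} [Fintype V]

/-- the vertices attached to the roots -/
noncomputable def JJ (C U : Finset V) (p : V → V) : Finset V := (U \ C).filter (fun x => p x ∈ C)

/-- the possible restrictions to `J` -/
noncomputable def FF (C J : Finset V) : Finset (V → V) :=
  Fintype.piFinset (fun x => if x ∈ J then C else {x})

lemma card_FF (C J : Finset V) : (FF C J).card = C.card ^ J.card := by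
  unfold FF
  rw [Fintype.card_piFinset]
  have h1 : ∀ x : V, (if x ∈ J then C else {x}).card = if x ∈ J then C.card else 1 := by
    intro x
    split_ifs <;> simp
  simp_rw [h1]
  rw [Finset.prod_ite, Finset.prod_const, Finset.prod_const_one, mul_one]
  congr 2
  ext x
  simp

lemma mem_FF {C J : Finset V} {f : V → V} :
    f ∈ FF C J ↔ (∀ x ∈ J, f x ∈ C) ∧ ∀ x, x ∉ J → f x = x := by
  unfold FF
  rw [Fintype.mem_piFinset]
  constructor
  · intro h
    refine ⟨fun x hx => ?_, fun x hx => ?_⟩
    · have := h x
      rwa [if_pos hx] at this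
    · have := h x
      rwa [if_neg hx, mem_singleton] at this
  · rintro ⟨h1, h2⟩ x
    split_ifs with hx
    · exact h1 x hx
    · rw [mem_singleton]
      exact h2 x hx

lemma mem_RFU {C U : Finset V} {p : V → V} : p ∈ RFU C U ↔
    (∀ x, x ∉ U ∨ x ∈ C → p x = x) ∧ (∀ x ∈ U, p x ∈ U) ∧ ∀ x ∈ U, ∃ k : ℕ, p^[k] x ∈ C := by
  unfold RFU
  rw [mem_filter]
  simp

lemma fiber (C U J : Finset V) (hCU : C ⊆ U) (hJ : J ⊆ U \ C) :
    ((RFU C U).filter (fun p => JJ C U p = J)).card = C.card ^ J.card * (RFU J (U \ C)).card := by
  rw [← card_FF C J, ← Finset.card_product]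
  refine Finset.card_nbij' (fun p => (fun x => if x ∈ J then p x else x,
    fun x => if x ∈ J then x else p x)) (fun g x => if x ∈ J then g.1 x else g.2 x) ?_ ?_ ?_ ?_
  · intro p hp
    rw [Finset.mem_coe, mem_filter, mem_RFU] at hp
    obtain ⟨⟨h1, h2, h3⟩, h4⟩ := hp
    have hmem : ∀ x, x ∈ J ↔ x ∈ U \ C ∧ p x ∈ C := fun x => by
      rw [← h4]
      unfold JJ
      rw [mem_filter]
    rw [Finset.mem_coe, mem_product, mem_FF, mem_RFU]
    refine ⟨⟨fun x hx => ?_, fun x hx => ?_⟩, fun x hx => ?_, fun x hx => ?_, ?_⟩
    · simp only [if_pos hx]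
      exact ((hmem x).1 hx).2
    · simp only [if_neg hx]
    · by_cases hxJ : x ∈ J
      · simp only [if_pos hxJ]
      · simp only [if_neg hxJ]
        apply h1
        rcases hx with hx | hx
        · rw [mem_sdiff, not_and_or, not_not] at hx
          exact hx
        · exact absurd hx hxJ
    · by_cases hxJ : x ∈ J
      · simp only [if_pos hxJ]
        exact hx
      · simp only [if_neg hxJ]
        rw [mem_sdiff]
        refine ⟨h2 x (mem_sdiff.1 hx).1, fun hc => hxJ ((hmem x).2 ⟨hx, hc⟩)⟩
    · have key : ∀ k : ℕ, ∀ x ∈ U \ C, p^[k] x ∈ C →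
          ∃ j : ℕ, (fun x => if x ∈ J then x else p x)^[j] x ∈ J := by
        intro k
        induction k with
        | zero =>
          intro x hx hk
          exact absurd hk (mem_sdiff.1 hx).2
        | succ k ih =>
          intro x hx hk
          by_cases hxJ : x ∈ J
          · exact ⟨0, hxJ⟩
          · have hpx : p x ∈ U \ C := by
              rw [mem_sdiff]
              exact ⟨h2 x (mem_sdiff.1 hx).1, fun hc => hxJ ((hmem x).2 ⟨hx, hc⟩)⟩
            obtain ⟨j, hj⟩ := ih (p x) hpx (by rwa [Function.iterate_succ_apply] at hk)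
            refine ⟨j + 1, ?_⟩
            rw [Function.iterate_succ_apply]
            simp only [if_neg hxJ]
            exact hj
      intro x hx
      obtain ⟨k, hk⟩ := h3 x (mem_sdiff.1 hx).1
      exact key k x hx hk
  · rintro ⟨f, p'⟩ hg
    rw [Finset.mem_coe, mem_product, mem_FF, mem_RFU] at hg
    obtain ⟨⟨f1, f2⟩, h1, h2, h3⟩ := hg
    simp only at f1 f2 h1 h2 h3
    rw [Finset.mem_coe, mem_filter, mem_RFU]
    have hJU : ∀ x ∈ J, x ∈ U ∧ x ∉ C := fun x hx => mem_sdiff.1 (hJ hx)
    refine ⟨⟨fun x hx => ?_, fun x hx => ?_, ?_⟩, ?_⟩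
    · have hxJ : x ∉ J := by
        intro h
        rcases hx with hx | hx
        · exact hx (hJU x h).1
        · exact (hJU x h).2 hx
      simp only [if_neg hxJ]
      apply h1
      left
      rw [mem_sdiff]
      rintro ⟨a, b⟩
      rcases hx with hx | hx
      · exact hx a
      · exact b hx
    · by_cases hxJ : x ∈ J
      · simp only [if_pos hxJ]
        exact hCU (f1 x hxJ)
      · simp only [if_neg hxJ]
        by_cases hxC : x ∈ C
        · rw [h1 x (Or.inl fun h => (mem_sdiff.1 h).2 hxC)]
          exact hx
        · exact (mem_sdiff.1 (h2 x (mem_sdiff.2 ⟨hx, hxC⟩))).1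
    · have key : ∀ k : ℕ, ∀ x ∈ U \ C, p'^[k] x ∈ J →
          ∃ j : ℕ, (fun x => if x ∈ J then f x else p' x)^[j] x ∈ C := by
        intro k
        induction k with
        | zero =>
          intro x _ hk
          refine ⟨1, ?_⟩
          have hk' : x ∈ J := hk
          rw [Function.iterate_one]
          simp only [if_pos hk']
          exact f1 x hk'
        | succ k ih =>
          intro x hx hk
          by_cases hxJ : x ∈ J
          · refine ⟨1, ?_⟩
            rw [Function.iterate_one]
            simp only [if_pos hxJ]
            exact f1 x hxJ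
          · obtain ⟨j, hj⟩ := ih (p' x) (h2 x hx) (by rwa [Function.iterate_succ_apply] at hk)
            refine ⟨j + 1, ?_⟩
            rw [Function.iterate_succ_apply]
            simp only [if_neg hxJ]
            exact hj
      intro x hx
      by_cases hxC : x ∈ C
      · exact ⟨0, hxC⟩
      · obtain ⟨k, hk⟩ := h3 x (mem_sdiff.2 ⟨hx, hxC⟩)
        exact key k x (mem_sdiff.2 ⟨hx, hxC⟩) hk
    · unfold JJ
      ext x
      rw [mem_filter]
      constructor
      · rintro ⟨hx, hc⟩
        by_contra hxJ
        simp only [if_neg hxJ] at hc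
        exact (mem_sdiff.1 (h2 x hx)).2 hc
      · intro hx
        refine ⟨hJ hx, ?_⟩
        simp only [if_pos hx]
        exact f1 x hx
  · intro p _
    funext x
    simp only
    split_ifs <;> rfl
  · rintro ⟨f, p'⟩ hg
    rw [Finset.mem_coe, mem_product, mem_FF, mem_RFU] at hg
    obtain ⟨⟨f1, f2⟩, h1, h2, h3⟩ := hg
    simp only at f1 f2 h1 h2 h3
    simp only [Prod.mk.injEq]
    refine ⟨?_, ?_⟩
    · funext x
      by_cases hxJ : x ∈ J
      · simp only [if_pos hxJ]
      · simp only [if_neg hxJ]
        exact (f2 x hxJ).symm
    · funext x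
      by_cases hxJ : x ∈ J
      · simp only [if_pos hxJ]
        exact (h1 x (Or.inr hxJ)).symm
      · simp only [if_neg hxJ]

lemma rec_card (C U : Finset V) (hCU : C ⊆ U) :
    (RFU C U).card = ∑ J ∈ (U \ C).powerset, C.card ^ J.card * (RFU J (U \ C)).card := by
  rw [Finset.card_eq_sum_card_fiberwise (f := JJ C U) (t := (U \ C).powerset)
    (fun p _ => by
      rw [Finset.mem_coe, mem_powerset]
      exact filter_subset _ _)]
  exact Finset.sum_congr rfl fun J hJ => fiber C U J hCU (mem_powerset.1 hJ)

lemma binom (c m : ℕ) :
    ∑ j ∈ range (m + 1), m.choose j * (c ^ j * (j * m ^ (m - j))) = m * (c * (c + m) ^ (m - 1)) := by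
  rcases m with _ | m
  · simp
  · rw [Finset.sum_range_succ']
    simp only [Nat.add_sub_cancel, mul_zero, add_zero, zero_mul]
    rw [add_pow, Finset.mul_sum, Finset.mul_sum]
    refine Finset.sum_congr rfl fun j hj => ?_
    have hj' : j ≤ m := by
      rw [mem_range] at hj
      omega
    have h1 : (m + 1).choose (j + 1) * (j + 1) = (m + 1) * m.choose j :=
      (Nat.add_one_mul_choose_eq m j).symm
    have h2 : m + 1 - (j + 1) = m - j := by omega
    rw [h2, pow_succ, Nat.cast_id]
    calc (m + 1).choose (j + 1) * (c ^ j * c * ((j + 1) * (m + 1) ^ (m - j))) =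
        ((m + 1).choose (j + 1) * (j + 1)) * (c ^ j * c * (m + 1) ^ (m - j)) := by ring
      _ = _ := by
        rw [h1]
        ring

theorem cayley : StCayley := by
  intro V _
  have main : ∀ m : ℕ, ∀ C U : Finset V, C ⊆ U → (U \ C).card = m →
      (RFU C U).card * U.card = C.card * U.card ^ (U \ C).card := by
    intro m
    induction m using Nat.strong_induction_on with
    | _ m ih =>
      intro C U hCU hm
      have hU : U.card = C.card + m := by
        rw [← hm, card_sdiff_of_subset hCU]
        have := card_le_card hCU
        omega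
      rcases Nat.eq_zero_or_pos m with h0 | hpos
      · subst h0
        have hUC : U = C := by
          refine Subset.antisymm ?_ hCU
          rwa [card_eq_zero, sdiff_eq_empty_iff_subset] at hm
        subst hUC
        have h1 : RFU U U = {id} := by
          ext p
          rw [mem_RFU, mem_singleton]
          constructor
          · rintro ⟨h, _, _⟩
            funext x
            exact h x (Classical.em (x ∈ U)).symm
          · rintro rfl
            exact ⟨fun _ _ => rfl, fun _ h => h, fun x hx => ⟨0, hx⟩⟩
        rw [h1, hm]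
        simp
      · have h1 : m * (RFU C U).card = m * (C.card * (C.card + m) ^ (m - 1)) := by
          rw [← binom, rec_card C U hCU, Finset.mul_sum]
          have h2 : ∀ J ∈ (U \ C).powerset, m * (C.card ^ J.card * (RFU J (U \ C)).card) =
              (fun j => C.card ^ j * (j * m ^ (m - j))) J.card := by
            intro J hJ
            rw [mem_powerset] at hJ
            simp only
            rcases J.eq_empty_or_nonempty with rfl | hne
            · have h3 : RFU (∅ : Finset V) (U \ C) = ∅ := by
                rw [eq_empty_iff_forall_notMem]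
                intro p hp
                rw [mem_RFU] at hp
                obtain ⟨x, hx⟩ := card_pos.1 (hm ▸ hpos : 0 < (U \ C).card)
                obtain ⟨k, hk⟩ := hp.2.2 x hx
                exact absurd hk (notMem_empty _)
              rw [h3]
              simp
            · have h4 : ((U \ C) \ J).card = m - J.card := by
                rw [card_sdiff_of_subset hJ, hm]
              have h5 := ih (m - J.card) (by
                have := hne.card_pos
                omega) J (U \ C) hJ h4
              rw [h4, hm] at h5
              calc m * (C.card ^ J.card * (RFU J (U \ C)).card) =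
                  C.card ^ J.card * ((RFU J (U \ C)).card * m) := by ring
                _ = _ := by rw [h5]
          rw [Finset.sum_congr rfl h2, Finset.sum_powerset_apply_card
            (fun j => C.card ^ j * (j * m ^ (m - j))) (x := U \ C), hm]
          simp only [smul_eq_mul]
        have h6 := Nat.eq_of_mul_eq_mul_left hpos h1
        rw [h6, hU, hm]
        obtain ⟨k, rfl⟩ : ∃ k, m = k + 1 := ⟨m - 1, by omega⟩
        rw [Nat.add_sub_cancel, pow_succ]
        ring
  intro C U hCU
  exact main _ C U hCU rfl

end Pool.Agent.N475.RFCayley
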