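import Pool.Agent.N375.RF.Basic

/-!
# Project RF: Lemma 2, a leaf is moved to a trivial tree
-/

set_option autoImplicit false

namespace Pool.Agent.N475.RFTwo

open Finset Classical
open Pool.Agent.N375.RF

variable {V : Type} [Fintype V]

/-- the set of the roots of the trivial trees -/
noncomputable def R1 (C : Finset V) (p : V → V) : Finset V :=
  C.filter (fun v => (L p v).card = 1)

lemma mem_R1 {C : Finset V} {p : V → V} {v : V} : v ∈ R1 C p ↔ v ∈ C ∧ (L p v).card = 1 := by
  unfold R1
  rw [mem_filter]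

lemma N_zero {C : Finset V} {p : V → V} {s : ℕ} (h : N C p s = 0) {v : V} (hv : v ∈ C) :
    (L p v).card ≠ s := by
  intro hs
  unfold N at h
  rw [card_eq_zero, filter_eq_empty_iff] at h
  exact h hv hs

lemma card_R1 {C : Finset V} {p : V → V} (h : IsRF C p) {D : ℕ} (hD : 2 ≤ D)
    (h0 : ∀ s, 2 ≤ s → s ≤ D → N C p s = 0) :
    C.card - Fintype.card V / D ≤ (R1 C p).card := by
  have h1 := h.card_large D
  have h2 : (C.filter (fun v => D < (L p v).card)).card ≤ Fintype.card V / D := by
    rw [Nat.le_div_iff_mul_le (by omega)]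
    refine le_trans ?_ h1
    exact Nat.mul_le_mul_left _ (by omega)
  have h3 : C ⊆ R1 C p ∪ C.filter (fun v => D < (L p v).card) := by
    intro v hv
    rw [mem_union, mem_R1, mem_filter]
    by_cases hc : D < (L p v).card
    · exact Or.inr ⟨hv, hc⟩
    · left
      refine ⟨hv, ?_⟩
      have h4 : 0 < (L p v).card := card_pos.2 ⟨v, self_mem_L p v⟩
      by_contra h5
      exact N_zero (h0 (L p v).card (by omega) (by omega)) hv rfl
  have h4 := (card_le_card h3).trans (card_union_le _ _)
  omega

lemma L_one {p : V → V} {v : V} (h : (L p v).card = 1) {x : V} (hx : x ∈ L p v) : x = v := by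
  obtain ⟨y, hy⟩ := card_eq_one.1 h
  have h1 := self_mem_L p v
  rw [hy, mem_singleton] at h1 hx
  rw [hx, h1]

/-- the relation -/
def Rel (C : Finset V) (p p' : V → V) : Prop :=
  ∃ v z, Leaf C p z ∧ v ∈ C ∧ (L p v).card = 1 ∧ p' = Function.update p z v

lemma forward {C : Finset V} {p : V → V} (h : IsRF C p) {D a : ℕ} (hD : 2 ≤ D)
    (h0 : ∀ s, 2 ≤ s → s ≤ D → N C p s = 0) (ha : a ≤ (leaves C p).card) :
    (C.card - Fintype.card V / D) * a ≤ ((RF C).filter (fun p' => Rel C p p')).card := by
  have h1 : (R1 C p ×ˢ leaves C p).card ≤ ((RF C).filter (fun p' => Rel C p p')).card := by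
    apply Finset.card_le_card_of_injOn (fun x => Function.update p x.2 x.1)
    · rintro ⟨v, z⟩ hx
      rw [Finset.mem_coe, mem_product, mem_R1, mem_leaves] at hx
      obtain ⟨⟨hv, hL⟩, hz⟩ := hx
      rw [Finset.mem_coe, mem_filter, mem_RF]
      have hne : v ≠ z := fun he => hz.1 (he ▸ hv)
      exact ⟨leaf_move h hz hne, v, z, hz, hv, hL, rfl⟩
    · rintro ⟨v, z⟩ hx ⟨v', z'⟩ hx' he
      rw [Finset.mem_coe, mem_product, mem_R1, mem_leaves] at hx hx'
      obtain ⟨⟨hv, hL⟩, hz⟩ := hx
      obtain ⟨⟨hv', hL'⟩, hz'⟩ := hx'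
      simp only at hv hL hz hv' hL' hz' he
      have key : ∀ {v z : V}, v ∈ C → (L p v).card = 1 → Leaf C p z → p z ≠ v := by
        intro v z hv hL hz hpz
        have h2 : z ∈ L p v := by
          rw [← h.p_mem hv, hpz]
          exact self_mem_L p v
        exact hz.1 (L_one hL h2 ▸ hv)
      have hzz : z = z' := by
        by_contra hne
        have h3 := congrFun he z
        rw [Function.update_self, Function.update_of_ne hne] at h3
        exact key hv hL hz h3.symm
      subst hzz
      have h3 := congrFun he z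
      rw [Function.update_self, Function.update_self] at h3
      rw [h3]
  rw [card_product] at h1
  exact (Nat.mul_le_mul (card_R1 h hD h0) ha).trans h1

/-- the possible leaves -/
noncomputable def ZZ (C : Finset V) (p' : V → V) : Finset V :=
  (C.filter (fun v => (L p' v).card = 2)).biUnion (fun v => (L p' v).erase v)

lemma card_ZZ (C : Finset V) (p' : V → V) : (ZZ C p').card ≤ N C p' 2 := by
  unfold ZZ N
  refine card_biUnion_le.trans ?_
  rw [card_eq_sum_ones]
  refine sum_le_sum fun v hv => ?_
  rw [card_erase_of_mem (self_mem_L p' v), (mem_filter.1 hv).2]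

lemma N_two {C : Finset V} {p : V → V} (h : IsRF C p) (h0 : N C p 2 = 0) {v z : V}
    (hv : v ∈ C) (hz : Leaf C p z) : N C (Function.update p z v) 2 ≤ 2 := by
  obtain ⟨ρ, hρ, hzρ⟩ := h.exists_root z
  have hne : v ≠ z := fun he => hz.1 (he ▸ hv)
  have h1 : C.filter (fun u => (L (Function.update p z v) u).card = 2) ⊆ {v, ρ} := by
    intro u hu
    rw [mem_filter] at hu
    obtain ⟨huC, hu2⟩ := hu
    rw [mem_insert, mem_singleton]
    by_contra hc
    rw [not_or] at hc
    have h2 : v ∉ L p u := fun hvu => hc.1 (h.root_mem hv hvu).symm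
    have h3 : z ∉ L p u := fun hzu => hc.2 (h.root_unique huC hρ hzu hzρ)
    rw [L_move_same hz hne huC h2 h3] at hu2
    exact N_zero h0 huC hu2
  exact (card_le_card h1).trans card_le_two

lemma gen (C : Finset V) (a D : ℕ) (hD : 2 ≤ D) (A : Finset (V → V))
    (hA : ∀ p ∈ A, IsRF C p ∧ a ≤ (leaves C p).card ∧ ∀ s, 2 ≤ s → s ≤ D → N C p s = 0) :
    A.card * ((C.card - Fintype.card V / D) * a) ≤ (RF C).card * (2 * Fintype.card V) := by
  refine double_count _ _ (Rel C) _ _ ?_ ?_
  · intro p hp
    obtain ⟨h1, h2, h3⟩ := hA p hp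
    exact forward h1 hD h3 h2
  · intro p' hp'
    rcases (A.filter (fun p => Rel C p p')).eq_empty_or_nonempty with he | ⟨q, hq⟩
    · rw [he, card_empty]
      exact Nat.zero_le _
    · have hN : N C p' 2 ≤ 2 := by
        rw [mem_filter] at hq
        obtain ⟨hqA, v, z, hz, hv, _, rfl⟩ := hq
        obtain ⟨hq1, _, hq2⟩ := hA q hqA
        exact N_two hq1 (hq2 2 le_rfl hD) hv hz
      have hsub : (A.filter (fun p => Rel C p p')) ⊆
          (ZZ C p' ×ˢ univ).image (fun x => Function.update p' x.1 x.2) := by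
        intro p hp
        rw [mem_filter] at hp
        obtain ⟨hpA, v, z, hz, hv, hL, rfl⟩ := hp
        obtain ⟨hp1, _, _⟩ := hA p hpA
        rw [mem_image]
        have hne : v ≠ z := fun he => hz.1 (he ▸ hv)
        refine ⟨(z, p z), ?_, update_update_self p z v⟩
        rw [mem_product]
        refine ⟨?_, mem_univ _⟩
        unfold ZZ
        rw [mem_biUnion]
        have h1 := L_move_of_mem hz hne hv (self_mem_L p v)
        have hzL : z ∉ L p v := fun h => hne (L_one hL h).symm
        refine ⟨v, ?_, ?_⟩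
        · rw [mem_filter, h1, card_insert_of_notMem hzL, hL]
          exact ⟨hv, rfl⟩
        · rw [mem_erase, h1]
          exact ⟨hne.symm, mem_insert_self _ _⟩
      calc _ ≤ ((ZZ C p' ×ˢ univ).image (fun x => Function.update p' x.1 x.2)).card :=
            card_le_card hsub
        _ ≤ (ZZ C p' ×ˢ (univ : Finset V)).card := card_image_le
        _ = (ZZ C p').card * Fintype.card V := by rw [card_product, card_univ]
        _ ≤ 2 * Fintype.card V := Nat.mul_le_mul_right _ ((card_ZZ C p').trans hN)

theorem lem2 : St2 := by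
  intro V _ C a D hD
  refine gen C a D hD _ fun p hp => ?_
  simp only [Finset.mem_filter, mem_RF] at hp
  exact hp

end Pool.Agent.N475.RFTwo
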