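import Mathlib

set_option autoImplicit false

/-!
Brauer's theorem: monochromatic progressions together with a multiple of the difference.
-/

namespace Pool.Agent.N475.Brauer

open Finset

/-- van der Waerden's theorem, finite form. -/
theorem vdw (κ : Type) [Finite κ] (L : ℕ) : ∃ W : ℕ, ∀ c : ℕ → κ, ∃ a D : ℕ, 0 < a ∧ 0 < D ∧
    a ≤ W ∧ D ≤ W ∧ ∀ i ≤ L, c (a + i * D) = c a := by
  classical
  obtain ⟨ι, _, h⟩ := Combinatorics.Line.exists_mono_in_high_dimension (Fin (L + 1)) κ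
  refine ⟨Fintype.card ι * L + Fintype.card ι + 1, fun c => ?_⟩
  obtain ⟨l, q, hl⟩ := h (fun v => c (1 + ∑ i, (v i : ℕ)))
  let A : Finset ι := univ.filter fun i => l.idxFun i = none
  have hA : 0 < A.card := by
    obtain ⟨i, hi⟩ := l.proper
    exact card_pos.2 ⟨i, by simp [A, hi]⟩
  have key : ∀ j : Fin (L + 1), (1 + ∑ i, ((l j i : Fin (L+1)) : ℕ)) =
      (1 + ∑ i, ((l 0 i : Fin (L+1)) : ℕ)) + j * A.card := by
    intro j
    have e1 : ∀ i, ((l j i : Fin (L+1)) : ℕ) = ((l 0 i : Fin (L+1)) : ℕ) + if i ∈ A then (j : ℕ) else 0 := by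
      intro i
      by_cases hi : l.idxFun i = none
      · have : i ∈ A := by simp [A, hi]
        rw [if_pos this, l.apply_none _ _ hi, l.apply_none _ _ hi]
        simp
      · have h2 : i ∉ A := by simp [A, hi]
        rw [if_neg h2]
        obtain ⟨y, hy⟩ := Option.ne_none_iff_exists'.mp hi
        rw [l.apply_some hy, l.apply_some hy]
        simp
    rw [sum_congr rfl fun i _ => e1 i, sum_add_distrib, sum_ite_mem, univ_inter, sum_const,
      smul_eq_mul]
    ring
  refine ⟨1 + ∑ i, ((l 0 i : Fin (L+1)) : ℕ), A.card, by omega, hA, ?_, ?_, ?_⟩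
  · have : ∑ i, ((l 0 i : Fin (L+1)) : ℕ) ≤ ∑ _i : ι, L :=
      sum_le_sum fun i _ => Nat.lt_succ_iff.1 (l 0 i).2
    rw [sum_const, card_univ, smul_eq_mul] at this
    omega
  · have : A.card ≤ Fintype.card ι := card_le_univ _
    omega
  · intro i hi
    have h1 := hl ⟨i, Nat.lt_succ_iff.2 hi⟩
    have h0 := hl 0
    simp only at h1 h0
    rw [key] at h1
    rw [h1, h0]

theorem brauer_aux (κ : Type) [Finite κ] [DecidableEq κ] (k s : ℕ) (hs : 0 < s) : ∀ r : ℕ, ∃ N : ℕ,
    ∀ (M : ℕ), 0 < M → ∀ c : ℕ → κ, ((Icc 1 N).image fun n => c (M * n)).card ≤ r →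
      ∃ a d : ℕ, 0 < a ∧ 0 < d ∧ ∀ j ≤ k, c (a + j * d) = c (s * d) := by
  intro r
  induction r with
  | zero =>
    refine ⟨1, fun M _ c h => ?_⟩
    simp at h
  | succ r ih =>
    obtain ⟨N0, hN0⟩ := ih
    obtain ⟨W, hW⟩ := vdw κ (k * N0)
    refine ⟨W + s * W * N0, fun M hM c h => ?_⟩
    obtain ⟨a, D, ha, hD, haW, hDW, hi⟩ := hW (fun n => c (M * n))
    by_cases ht : ∃ t, 1 ≤ t ∧ t ≤ N0 ∧ c (M * (s * t * D)) = c (M * a)
    · obtain ⟨t, ht1, ht2, ht3⟩ := ht
      refine ⟨M * a, M * (t * D), Nat.mul_pos hM ha, Nat.mul_pos hM (Nat.mul_pos ht1 hD), ?_⟩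
      intro j hj
      have h1 := hi (j * t) (Nat.mul_le_mul hj ht2)
      rw [show M * a + j * (M * (t * D)) = M * (a + j * t * D) by ring, h1,
        show s * (M * (t * D)) = M * (s * t * D) by ring, ht3]
    · push Not at ht
      refine hN0 (M * (s * D)) (Nat.mul_pos hM (Nat.mul_pos hs hD)) c ?_
      have hsub : ((Icc 1 N0).image fun n => c (M * (s * D) * n)) ⊆
          ((Icc 1 (W + s * W * N0)).image fun n => c (M * n)).erase (c (M * a)) := by
        intro q hq
        rw [mem_image] at hq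
        obtain ⟨t, ht', rfl⟩ := hq
        rw [mem_Icc] at ht'
        rw [mem_erase, mem_image]
        refine ⟨?_, s * t * D, ?_, by congr 1; ring⟩
        · have := ht t ht'.1 ht'.2
          rwa [show M * (s * D) * t = M * (s * t * D) by ring]
        · rw [mem_Icc]
          refine ⟨Nat.mul_pos (Nat.mul_pos hs ht'.1) hD, ?_⟩
          calc s * t * D ≤ s * N0 * W := Nat.mul_le_mul (Nat.mul_le_mul le_rfl ht'.2) hDW
            _ = s * W * N0 := by ring
            _ ≤ _ := Nat.le_add_left _ _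
      have hmem : c (M * a) ∈ (Icc 1 (W + s * W * N0)).image fun n => c (M * n) := by
        rw [mem_image]
        exact ⟨a, by rw [mem_Icc]; omega, rfl⟩
      have := card_le_card hsub
      rw [card_erase_of_mem hmem] at this
      omega

/-- Brauer's theorem. -/
theorem brauer (κ : Type) [Finite κ] (k s : ℕ) (hs : 0 < s) (c : ℕ → κ) :
    ∃ a d : ℕ, 0 < a ∧ 0 < d ∧ ∀ j ≤ k, c (a + j * d) = c (s * d) := by
  classical
  obtain ⟨_⟩ := nonempty_fintype κ
  obtain ⟨N, hN⟩ := brauer_aux κ k s hs (Fintype.card κ)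
  exact hN 1 one_pos c (card_le_univ _)

end Pool.Agent.N475.Brauer
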