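import Mathlib

set_option autoImplicit false

/-!
The linear equation `x - 2 y = c z`: last digit colourings.
-/

namespace Pool.Agent.N475.DigitCol

theorem split (q : ℕ) (hq : q.Prime) (n : ℕ) (hn : 0 < n) : ∃ k m : ℕ, n = q ^ k * m ∧ ¬ q ∣ m ∧
    m = n / q ^ (n.factorization q) :=
  ⟨n.factorization q, n / q ^ (n.factorization q), (Nat.ordProj_mul_ordCompl_eq_self n q).symm,
    Nat.not_dvd_ordCompl hq hn.ne', rfl⟩

theorem red (q k a x' : ℕ) (u : ZMod q) (hk : k ≤ a) (hu : (x' : ZMod q) = u) :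
    ∃ X : ℕ, q ^ a * x' = q ^ k * X ∧ ((X : ZMod q) = if a = k then u else 0) := by
  obtain ⟨j, rfl⟩ := Nat.exists_eq_add_of_le hk
  refine ⟨q ^ j * x', by ring, ?_⟩
  rcases Nat.eq_zero_or_pos j with rfl | hj
  · simp [hu]
  · rw [if_neg (by omega)]
    push_cast
    rw [ZMod.natCast_self, zero_pow hj.ne', zero_mul]

/-- Rado's colouring for `x - 2 y = c z`. -/
theorem linear (c : ℤ) (h0 : c ≠ 0) (h1 : c ≠ 1) (h2 : c ≠ -1) (h3 : c ≠ -2) :
    ∃ (κ : Type) (_ : Finite κ) (col : ℕ → κ), ∀ x y z : ℕ, 0 < x → 0 < y → 0 < z →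
      col x = col y → col y = col z → (x : ℤ) - 2 * y ≠ c * z := by
  obtain ⟨q, hq1, hq⟩ := Nat.exists_infinite_primes (c.natAbs + 4)
  have : Fact q.Prime := ⟨hq⟩
  have : NeZero q := ⟨hq.ne_zero⟩
  refine ⟨ZMod q, inferInstance, fun n => ((n / q ^ (n.factorization q) : ℕ) : ZMod q), ?_⟩
  intro x y z hx hy hz hxy hyz heq
  obtain ⟨a, x', ex, nx, ex'⟩ := split q hq x hx
  obtain ⟨b, y', ey, ny, ey'⟩ := split q hq y hy
  obtain ⟨e, z', ez, nz, ez'⟩ := split q hq z hz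
  simp only at hxy hyz
  rw [← ex', ← ey'] at hxy
  rw [← ey', ← ez'] at hyz
  set u : ZMod q := (z' : ZMod q) with hu
  have hu0 : u ≠ 0 := by
    rw [hu, Ne, ZMod.natCast_eq_zero_iff]
    exact nz
  have hyu : (y' : ZMod q) = u := hyz
  have hxu : (x' : ZMod q) = u := by rw [hxy, hyz]
  obtain ⟨k, hka, hkb, hke, hk⟩ : ∃ k, k ≤ a ∧ k ≤ b ∧ k ≤ e ∧ (a = k ∨ b = k ∨ e = k) :=
    ⟨min a (min b e), by omega, by omega, by omega, by omega⟩
  obtain ⟨X, eX, hX⟩ := red q k a x' u hka hxu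
  obtain ⟨Y, eY, hY⟩ := red q k b y' u hkb hyu
  obtain ⟨Z, eZ, hZ⟩ := red q k e z' u hke rfl
  have hE : (X : ℤ) - 2 * Y = c * Z := by
    rw [ex, ey, ez, eX, eY, eZ] at heq
    push_cast at heq
    have hqk : ((q : ℤ) ^ k) ≠ 0 := by
      have := hq.ne_zero
      positivity
    apply mul_left_cancel₀ hqk
    linear_combination heq
  have hZm : ((X : ZMod q)) - 2 * (Y : ZMod q) = (c : ZMod q) * (Z : ZMod q) := by
    have := congrArg (fun t : ℤ => (t : ZMod q)) hE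
    push_cast at this
    exact this
  have hfin : ∀ s : ℤ, (s : ZMod q) * u = 0 → s.natAbs ≤ c.natAbs + 3 → s = 0 := by
    intro s hs hle
    rcases mul_eq_zero.1 hs with h | h
    · rw [ZMod.intCast_zmod_eq_zero_iff_dvd] at h
      by_contra hne
      have := Int.natAbs_dvd_natAbs.2 h
      have := Nat.le_of_dvd (Int.natAbs_pos.2 hne) this
      simp at this
      omega
    · exact absurd h hu0
  rw [hX, hY, hZ] at hZm
  have key : ∀ α β γ : ℤ, ((α : ZMod q) * u - 2 * ((β : ZMod q) * u) = (c : ZMod q) * ((γ : ZMod q) * u)) →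
      (α - 2 * β - c * γ).natAbs ≤ c.natAbs + 3 → α - 2 * β - c * γ = 0 := by
    intro α β γ h hle
    apply hfin _ _ hle
    push_cast
    linear_combination h
  have hcases : ∀ (α β γ : ℤ), (α = 0 ∨ α = 1) → (β = 0 ∨ β = 1) → (γ = 0 ∨ γ = 1) →
      (α = 1 ∨ β = 1 ∨ γ = 1) → α - 2 * β - c * γ ≠ 0 ∧ (α - 2 * β - c * γ).natAbs ≤ c.natAbs + 3 := by
    rintro α β γ (rfl | rfl) (rfl | rfl) (rfl | rfl) h <;> simp at h <;> constructor <;> omega
  have hα : ∃ α : ℤ, (α = 0 ∨ α = 1) ∧ (a = k → α = 1) ∧ ((if a = k then u else 0) = (α : ZMod q) * u) := by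
    by_cases h : a = k
    · exact ⟨1, Or.inr rfl, fun _ => rfl, by simp [h]⟩
    · exact ⟨0, Or.inl rfl, fun h' => absurd h' h, by simp [h]⟩
  have hβ : ∃ α : ℤ, (α = 0 ∨ α = 1) ∧ (b = k → α = 1) ∧ ((if b = k then u else 0) = (α : ZMod q) * u) := by
    by_cases h : b = k
    · exact ⟨1, Or.inr rfl, fun _ => rfl, by simp [h]⟩
    · exact ⟨0, Or.inl rfl, fun h' => absurd h' h, by simp [h]⟩
  have hγ : ∃ α : ℤ, (α = 0 ∨ α = 1) ∧ (e = k → α = 1) ∧ ((if e = k then u else 0) = (α : ZMod q) * u) := by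
    by_cases h : e = k
    · exact ⟨1, Or.inr rfl, fun _ => rfl, by simp [h]⟩
    · exact ⟨0, Or.inl rfl, fun h' => absurd h' h, by simp [h]⟩
  obtain ⟨α, α1, α2, α3⟩ := hα
  obtain ⟨β, β1, β2, β3⟩ := hβ
  obtain ⟨γ, γ1, γ2, γ3⟩ := hγ
  rw [α3, β3, γ3] at hZm
  obtain ⟨r1, r2⟩ := hcases α β γ α1 β1 γ1 (by
    rcases hk with h | h | h
    · exact Or.inl (α2 h)
    · exact Or.inr (Or.inl (β2 h))
    · exact Or.inr (Or.inr (γ2 h)))
  exact r1 (key α β γ hZm r2)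

/-- `x = 2 y` -/
theorem double : ∃ (κ : Type) (_ : Finite κ) (col : ℕ → κ), ∀ x y z : ℕ, 0 < x → 0 < y → 0 < z →
      col x = col y → col y = col z → (x : ℤ) - 2 * y ≠ 0 := by
  refine ⟨Fin 2, inferInstance, fun n => ⟨Nat.log 2 n % 2, Nat.mod_lt _ (by norm_num)⟩, ?_⟩
  intro x y z hx hy hz h _ heq
  simp only [Fin.mk.injEq] at h
  have : x = y * 2 := by omega
  rw [this, Nat.log_mul_base (by norm_num) hy.ne'] at h
  omega

end Pool.Agent.N475.DigitCol
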