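import Pool.Agent.N912.EL.Stm

/-!
Project EL, part GVLa: `Gva` as a sum over pairs of integers (port of `Pool.Agent.W701.EG.Gvl`).
-/

set_option autoImplicit false

namespace Pool.Agent.N475.EL4

open Finset Filter
open Pool.Agent.W78.GA hiding ps
open Pool.Agent.W78.EG Pool.Agent.N912.EL
open Pool.Agent.W78.EC (psi)

variable {t c : ℤ} {f : ℕ}

lemma hD_of {χ : DirichletCharacter ℂ f} (hF : Fd t c f χ) : t ^ 2 < 4 * c := by
  have h1 := hF.disc
  have h2 := hF.three
  have h3 : (3 : ℤ) ≤ f := by exact_mod_cast h2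
  linarith

lemma th_ne {χ : DirichletCharacter ℂ f} {Q : ℕ} {m : ℤ} (h : th χ Q m ≠ 0) :
    0 < m ∧ m.toNat ∈ Ioc Q (2 * Q) := by
  classical
  unfold th at h
  split_ifs at h with h1
  · refine ⟨h1.1, ?_⟩
    have h2 := h1.2
    unfold PQ at h2
    exact (mem_filter.1 h2).1
  · exact absurd rfl h

lemma ta_ne {χ : DirichletCharacter ℂ f} {a : ℕ → ℝ} {Q : ℕ} {m : ℤ} (h : ta χ a Q m ≠ 0) :
    0 < m ∧ m.toNat ∈ Ioc Q (2 * Q) := th_ne (right_ne_zero_of_mul h)

lemma psi_ne {x : ℝ} (h : psi x ≠ 0) : x < 4 := by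
  by_contra hcon
  push Not at hcon
  apply h
  unfold psi
  rw [max_eq_left (by linarith)]
  norm_num

/-- recovering the vector from its determinants with two vectors -/
lemma re_rec (v w₁ w₂ : Qd t c) : dt w₁ w₂ * v.re = dt v w₂ * w₁.re - dt v w₁ * w₂.re := by
  unfold dt
  ring

lemma im_rec (v w₁ w₂ : Qd t c) : dt w₁ w₂ * v.im = dt v w₂ * w₁.im - dt v w₁ * w₂.im := by
  unfold dt
  ring

theorem gvla {χ : DirichletCharacter ℂ f} (hF : Fd t c f χ) : S_GVLa t c χ := by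
  classical
  intro Q X w₁ w₂ hX hp₁ hp₂ hD
  have hD4 := hD_of hF
  set D : ℤ := dt w₁ w₂ with hDd
  have hDn : ((D.toNat : ℕ) : ℤ) = D := Int.toNat_of_nonneg hD.le
  have hDn0 : 0 < D.toNat := by omega
  -- Bezout
  obtain ⟨α, β, hαβ⟩ : ∃ α β : ℤ, α * w₁.re + β * w₁.im = 1 := by
    have h1 : IsCoprime w₁.re w₁.im := Int.isCoprime_iff_gcd_eq_one.2 hp₁
    obtain ⟨α, β, h⟩ := h1
    exact ⟨α, β, h⟩
  have hcop₂ : IsCoprime w₂.re w₂.im := Int.isCoprime_iff_gcd_eq_one.2 hp₂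
  set q₀ : ℤ := α * w₂.re + β * w₂.im with hq₀
  have hre₀ : D ∣ w₂.re - q₀ * w₁.re := by
    refine ⟨-β, ?_⟩
    have : w₂.re - q₀ * w₁.re = w₂.re * (α * w₁.re + β * w₁.im) - q₀ * w₁.re := by
      rw [hαβ, mul_one]
    rw [this, hq₀, hDd]
    unfold dt
    ring
  have him₀ : D ∣ w₂.im - q₀ * w₁.im := by
    refine ⟨α, ?_⟩
    have : w₂.im - q₀ * w₁.im = w₂.im * (α * w₁.re + β * w₁.im) - q₀ * w₁.im := by
      rw [hαβ, mul_one]
    rw [this, hq₀, hDd]
    unfold dt
    ring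
  set b₀ : ℕ := (q₀ % D).toNat with hb₀
  have hcn : (b₀ : ℤ) = q₀ % D := Int.toNat_of_nonneg (Int.emod_nonneg _ hD.ne')
  have hcc : D ∣ q₀ - b₀ := by
    rw [hcn]
    exact Int.dvd_self_sub_emod
  have hre : D ∣ w₂.re - b₀ * w₁.re := by
    have : w₂.re - b₀ * w₁.re = (w₂.re - q₀ * w₁.re) + (q₀ - b₀) * w₁.re := by ring
    rw [this]
    exact dvd_add hre₀ (hcc.mul_right _)
  have him : D ∣ w₂.im - b₀ * w₁.im := by
    have : w₂.im - b₀ * w₁.im = (w₂.im - q₀ * w₁.im) + (q₀ - b₀) * w₁.im := by ring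
    rw [this]
    exact dvd_add him₀ (hcc.mul_right _)
  have hclt : b₀ < D.toNat := by
    have : (b₀ : ℤ) < D := by
      rw [hcn]
      exact Int.emod_lt_of_pos _ hD
    omega
  have hccop : Nat.Coprime b₀ D.toNat := by
    rw [← Nat.isCoprime_iff_coprime, hDn]
    obtain ⟨a, b, hab⟩ := hcop₂
    obtain ⟨x, hx⟩ := hre
    obtain ⟨y, hy⟩ := him
    refine ⟨a * w₁.re + b * w₁.im, a * x + b * y, ?_⟩
    linear_combination hab - a * hx - b * hy
  refine ⟨b₀, hclt, hccop, hre, him, ?_, ?_⟩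
  · -- the congruences
    intro g hg m₁ m₂
    have hgD : (g : ℤ) ∣ D := by
      rw [← hDn]
      exact Int.natCast_dvd_natCast.2 hg
    rw [Nat.ModEq.comm, Nat.modEq_iff_dvd]
    push_cast
    unfold Cg
    have e1 : (m₂ : ℤ) * w₁.re - m₁ * w₂.re =
        ((m₂ : ℤ) - b₀ * m₁) * w₁.re - m₁ * (w₂.re - b₀ * w₁.re) := by ring
    have e2 : (m₂ : ℤ) * w₁.im - m₁ * w₂.im =
        ((m₂ : ℤ) - b₀ * m₁) * w₁.im - m₁ * (w₂.im - b₀ * w₁.im) := by ring
    constructor
    · rintro ⟨h1, h2⟩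
      have h3 : (g : ℤ) ∣ ((m₂ : ℤ) - b₀ * m₁) * w₁.re := by
        have : ((m₂ : ℤ) - b₀ * m₁) * w₁.re =
            ((m₂ : ℤ) * w₁.re - m₁ * w₂.re) + m₁ * (w₂.re - b₀ * w₁.re) := by ring
        rw [this]
        exact dvd_add h1 ((hgD.trans hre).mul_left _)
      have h4 : (g : ℤ) ∣ ((m₂ : ℤ) - b₀ * m₁) * w₁.im := by
        have : ((m₂ : ℤ) - b₀ * m₁) * w₁.im =
            ((m₂ : ℤ) * w₁.im - m₁ * w₂.im) + m₁ * (w₂.im - b₀ * w₁.im) := by ring
        rw [this]
        exact dvd_add h2 ((hgD.trans him).mul_left _)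
      have h5 : (m₂ : ℤ) - b₀ * m₁ = α * (((m₂ : ℤ) - b₀ * m₁) * w₁.re) +
          β * (((m₂ : ℤ) - b₀ * m₁) * w₁.im) := by
        linear_combination (-((m₂ : ℤ) - b₀ * m₁)) * hαβ
      rw [h5]
      exact dvd_add (h3.mul_left _) (h4.mul_left _)
    · intro h1
      refine ⟨?_, ?_⟩
      · rw [e1]
        exact dvd_sub (h1.mul_right _) ((hgD.trans hre).mul_left _)
      · rw [e2]
        exact dvd_sub (h1.mul_right _) ((hgD.trans him).mul_left _)
  · -- the bijection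
    intro a
    have hps : ∀ m₁ m₂ : ℕ, ps X w₁ w₂ m₁ m₂ =
        psi ((nm ((m₂ : (Qd t c)) * w₁ - (m₁ : (Qd t c)) * w₂) : ℝ) / ((D : ℝ) ^ 2 * X)) :=
      fun _ _ => rfl
    simp only [hps]
    rw [← Finset.sum_product', Gva]
    -- congruences
    have hcong : ∀ m₁ m₂ : ℕ, m₂ ≡ b₀ * m₁ [MOD D.toNat] ↔ D ∣ (m₂ : ℤ) - b₀ * m₁ := by
      intro m₁ m₂
      rw [Nat.ModEq.comm, Nat.modEq_iff_dvd, hDn]
      push_cast
      rfl
    -- the norm
    have hnm : ∀ (m₁ m₂ : ℕ) (v : (Qd t c)), D * v.re = m₂ * w₁.re - m₁ * w₂.re →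
        D * v.im = m₂ * w₁.im - m₁ * w₂.im →
        (nm ((m₂ : (Qd t c)) * w₁ - (m₁ : (Qd t c)) * w₂) : ℝ) / ((D : ℝ) ^ 2 * X) = nm v / X := by
      intro m₁ m₂ v h1 h2
      have h3 : (nm ((m₂ : (Qd t c)) * w₁ - (m₁ : (Qd t c)) * w₂) : ℝ) = (D : ℝ) ^ 2 * nm v := by
        have e1 : ((m₂ : (Qd t c)) * w₁ - (m₁ : (Qd t c)) * w₂).re = D * v.re := by
          rw [h1]
          simp only [QuadraticAlgebra.re_sub, QuadraticAlgebra.re_mul,
            QuadraticAlgebra.re_natCast, QuadraticAlgebra.im_natCast]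
          ring
        have e2 : ((m₂ : (Qd t c)) * w₁ - (m₁ : (Qd t c)) * w₂).im = D * v.im := by
          rw [h2]
          simp only [QuadraticAlgebra.im_sub, QuadraticAlgebra.im_mul,
            QuadraticAlgebra.re_natCast, QuadraticAlgebra.im_natCast]
          ring
        rw [nm_castR hD4, nm_castR hD4, e1, e2]
        push_cast
        ring
      have hD0 : (D : ℝ) ≠ 0 := by exact_mod_cast hD.ne'
      have hX0 : X ≠ 0 := by linarith
      rw [h3]
      field_simp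
    refine Finset.sum_bij_ne_zero (fun v _ _ => ((dt v w₁).toNat, (dt v w₂).toNat)) ?_ ?_ ?_ ?_
    · intro v _ hne
      have h1 := ta_ne (right_ne_zero_of_mul (left_ne_zero_of_mul hne))
      have h2 := ta_ne (right_ne_zero_of_mul hne)
      exact mem_product.2 ⟨h1.2, h2.2⟩
    · intro v _ hne v' _ hne' heq
      have h1 := ta_ne (right_ne_zero_of_mul (left_ne_zero_of_mul hne))
      have h2 := ta_ne (right_ne_zero_of_mul hne)
      have h1' := ta_ne (right_ne_zero_of_mul (left_ne_zero_of_mul hne'))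
      have h2' := ta_ne (right_ne_zero_of_mul hne')
      rw [Prod.mk.injEq] at heq
      have e1 : dt v w₁ = dt v' w₁ := by omega
      have e2 : dt v w₂ = dt v' w₂ := by omega
      have r1 := re_rec v w₁ w₂
      have r2 := re_rec v' w₁ w₂
      have i1 := im_rec v w₁ w₂
      have i2 := im_rec v' w₁ w₂
      rw [e1, e2, ← r2] at r1
      rw [e1, e2, ← i2] at i1
      exact QuadraticAlgebra.ext (mul_left_cancel₀ hD.ne' r1) (mul_left_cancel₀ hD.ne' i1)
    · rintro ⟨m₁, m₂⟩ hm hne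
      dsimp only at hne
      have hcg : m₂ ≡ b₀ * m₁ [MOD D.toNat] := by
        by_contra hcon
        rw [if_neg hcon, zero_mul] at hne
        exact hne rfl
      have hne2 := hne
      rw [if_pos hcg] at hne2
      have hdv := (hcong m₁ m₂).1 hcg
      have hm1 := (mem_Ioc.1 (mem_product.1 hm).1)
      have hm2 := (mem_Ioc.1 (mem_product.1 hm).2)
      dsimp only at hm1 hm2
      obtain ⟨x, hx⟩ : D ∣ (m₂ : ℤ) * w₁.re - m₁ * w₂.re := by
        have : (m₂ : ℤ) * w₁.re - m₁ * w₂.re =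
          ((m₂ : ℤ) - b₀ * m₁) * w₁.re - m₁ * (w₂.re - b₀ * w₁.re) := by ring
        rw [this]
        exact dvd_sub (hdv.mul_right _) (hre.mul_left _)
      obtain ⟨y, hy⟩ : D ∣ (m₂ : ℤ) * w₁.im - m₁ * w₂.im := by
        have : (m₂ : ℤ) * w₁.im - m₁ * w₂.im =
          ((m₂ : ℤ) - b₀ * m₁) * w₁.im - m₁ * (w₂.im - b₀ * w₁.im) := by ring
        rw [this]
        exact dvd_sub (hdv.mul_right _) (him.mul_left _)
      set v : (Qd t c) := ⟨x, y⟩ with hv
      have d1 : dt v w₁ = m₁ := by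
        apply mul_left_cancel₀ hD.ne'
        have : D * dt v w₁ = (D * x) * w₁.im - (D * y) * w₁.re := by
          rw [hv]
          unfold dt
          ring
        rw [this, ← hx, ← hy, hDd]
        unfold dt
        ring
      have d2 : dt v w₂ = m₂ := by
        apply mul_left_cancel₀ hD.ne'
        have : D * dt v w₂ = (D * x) * w₂.im - (D * y) * w₂.re := by
          rw [hv]
          unfold dt
          ring
        rw [this, ← hx, ← hy, hDd]
        unfold dt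
        ring
      have hn := hnm m₁ m₂ v hx.symm hy.symm
      rw [hn] at hne2
      have hpsi := psi_ne (right_ne_zero_of_mul hne2)
      have hX0 : 0 < X := by linarith
      have hvne : v ≠ 0 := by
        intro h0
        rw [h0] at d1
        unfold dt at d1
        simp at d1
        omega
      refine ⟨v, ?_, ?_, ?_⟩
      · rw [mem_ball hD4]
        refine ⟨(one_le_nm hD4).2 hvne, ?_⟩
        rw [div_lt_iff₀ hX0] at hpsi
        exact hpsi.le
      · rw [d1, d2]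
        intro h0
        apply hne2
        rw [← h0]
        ring
      · rw [d1, d2, Int.toNat_natCast, Int.toNat_natCast]
    · intro v _ hne
      have h1 := ta_ne (right_ne_zero_of_mul (left_ne_zero_of_mul hne))
      have h2 := ta_ne (right_ne_zero_of_mul hne)
      dsimp only
      have e1 : (((dt v w₁).toNat : ℕ) : ℤ) = dt v w₁ := Int.toNat_of_nonneg h1.1.le
      have e2 : (((dt v w₂).toNat : ℕ) : ℤ) = dt v w₂ := Int.toNat_of_nonneg h2.1.le
      have hcg : (dt v w₂).toNat ≡ b₀ * (dt v w₁).toNat [MOD D.toNat] := by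
        rw [hcong, e1, e2]
        have : dt v w₂ - b₀ * dt v w₁ =
          v.re * (w₂.im - b₀ * w₁.im) - v.im * (w₂.re - b₀ * w₁.re) := by
          unfold dt
          ring
        rw [this]
        exact dvd_sub (him.mul_left _) (hre.mul_left _)
      rw [if_pos hcg, e1, e2, hnm (dt v w₁).toNat (dt v w₂).toNat v
        (by rw [e1, e2]; exact re_rec v w₁ w₂) (by rw [e1, e2]; exact im_rec v w₁ w₂)]
      ring

end Pool.Agent.N475.EL4
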