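import Pool.Agent.N906.NT.Stm
import Pool.Agent.N72.SZ_EUPQ

/-!
# Leaf NT/EUPN (helper906): the logarithm of the Euler product, exponent r

`log (1 + x) ≤ x` for the primes `p > V = u^(-r (1-η))`, for which `x / log x * G_j(x) ≤ u / (u log x)^(j+1)` with
`G_j(x) = x^(θu-1) / (x^u-1)^j`, and cells of ratio `1 + η`; the trivial bound below `V`.
-/

set_option autoImplicit false

namespace Pool.Agent.N475.NT

open Finset Filter Topology Pool.Agent.N906.NT
open Pool.Agent.N163.RS (G G_nonneg G_anti G_val pow_sub_pos)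

theorem pw_step (j : ℕ) (a h : ℝ) (ha : 0 < a) (hh : 0 < h) :
    (j : ℝ) * (h / (a + h) ^ (j + 1)) ≤ 1 / a ^ j - 1 / (a + h) ^ j := by
  have hb : 0 < a + h := by positivity
  have hz : 0 < h / (a + h) := by positivity
  have hz1 : h / (a + h) < 1 := by
    rw [div_lt_one hb]
    linarith
  have h1 : 1 + (j : ℝ) * (h / (a + h)) ≤ (1 + h / (a + h)) ^ j :=
    one_add_mul_le_pow (by linarith) j
  have h2 : a = (a + h) * (1 - h / (a + h)) := by
    field_simp
    ring
  have h3 : (1 - h / (a + h)) ^ j * (1 + (j : ℝ) * (h / (a + h))) ≤ 1 := by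
    calc (1 - h / (a + h)) ^ j * (1 + (j : ℝ) * (h / (a + h)))
        ≤ (1 - h / (a + h)) ^ j * (1 + h / (a + h)) ^ j :=
          mul_le_mul_of_nonneg_left h1 (pow_nonneg (by linarith) _)
      _ = (1 - (h / (a + h)) ^ 2) ^ j := by
          rw [← mul_pow]
          congr 1
          ring
      _ ≤ 1 := pow_le_one₀ (by nlinarith) (by nlinarith)
  have h4 : (1 + (j : ℝ) * (h / (a + h))) / (a + h) ^ j ≤ 1 / a ^ j := by
    rw [div_le_div_iff₀ (by positivity) (by positivity), one_mul]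
    calc (1 + (j : ℝ) * (h / (a + h))) * a ^ j
        = (a + h) ^ j * ((1 - h / (a + h)) ^ j * (1 + (j : ℝ) * (h / (a + h)))) := by
          conv_lhs => rw [h2]
          rw [mul_pow]
          have e1 : (a + h) * (1 - h / (a + h)) + h = a + h := by rw [← h2]
          rw [e1]
          ring
      _ ≤ (a + h) ^ j * 1 := mul_le_mul_of_nonneg_left h3 (by positivity)
      _ = (a + h) ^ j := mul_one _
  have h5 : (1 + (j : ℝ) * (h / (a + h))) / (a + h) ^ j =
      1 / (a + h) ^ j + (j : ℝ) * (h / (a + h) ^ (j + 1)) := by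
    field_simp
    ring
  linarith

/-- the sum of the reciprocals of the powers of an arithmetic progression -/
theorem sum_pw (j : ℕ) (y h : ℝ) (hy : 0 < y) (hh : 0 < h) (K : ℕ) :
    (j : ℝ) * ∑ k ∈ range (K + 1), h / (y + k * h) ^ (j + 1) ≤
      j * (h / y ^ (j + 1)) + 1 / y ^ j - 1 / (y + K * h) ^ j := by
  induction K with
  | zero => simp
  | succ K ih =>
    rw [sum_range_succ, mul_add]
    have h1 : 0 < y + K * h := by positivity
    have h3 : y + ((K + 1 : ℕ) : ℝ) * h = (y + K * h) + h := by push_cast; ring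
    have h4 := pw_step j (y + K * h) h h1 hh
    rw [h3]
    linarith

/-- the summand -/
noncomputable def GG (j : ℕ) (θ u x : ℝ) : ℝ := x ^ (θ * u - 1) / (x ^ u - 1) ^ j

theorem GG_nonneg {j : ℕ} {θ u x : ℝ} (hu : 0 < u) (hx : 1 < x) : 0 ≤ GG j θ u x :=
  div_nonneg (Real.rpow_nonneg (by linarith) _) (pow_nonneg (pow_sub_pos hu hx).le _)

theorem GG_anti {j : ℕ} {θ u x y : ℝ} (hu : 0 < u) (hθ : θ * u ≤ 1) (hx : 1 < x) (hxy : x ≤ y) :
    GG j θ u y ≤ GG j θ u x := by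
  unfold GG
  have h1 : y ^ (θ * u - 1) ≤ x ^ (θ * u - 1) :=
    Real.rpow_le_rpow_of_nonpos (by linarith) hxy (by linarith)
  have h2 : x ^ u ≤ y ^ u := Real.rpow_le_rpow (by linarith) hxy hu.le
  have h3 := pow_sub_pos hu hx
  exact div_le_div₀ (Real.rpow_nonneg (by linarith) _) h1 (pow_pos h3 _)
    (pow_le_pow_left₀ h3.le (by linarith) _)

theorem sub_one_ge {u x : ℝ} (hx : 0 < x) : u * Real.log x ≤ x ^ u - 1 := by
  have h3 : x ^ u = Real.exp (u * Real.log x) := by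
    rw [Real.rpow_def_of_pos hx, mul_comm]
  have h4 := Real.add_one_le_exp (u * Real.log x)
  rw [h3]
  linarith

theorem GG_val {j : ℕ} (hj : 1 ≤ j) {θ u x : ℝ} (hu : 0 < u) (hθ : θ ≤ 1 / 2) (hx : 1 < x) :
    x / Real.log x * GG j θ u x ≤ u / (u * Real.log x) ^ (j + 1) := by
  obtain ⟨m, rfl⟩ : ∃ m, j = m + 1 := ⟨j - 1, by omega⟩
  have hl : 0 < Real.log x := Real.log_pos hx
  have hx0 : 0 < x := by linarith
  have hy : 0 < u * Real.log x := by positivity
  have h0 := pow_sub_pos hu hx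
  have h1 := G_val hu hθ hx
  have h2 := sub_one_ge (u := u) hx0
  have e1 : GG (m + 1) θ u x = G θ u x * (1 / (x ^ u - 1) ^ m) := by
    unfold GG G
    field_simp
    ring
  rw [e1, ← mul_assoc]
  calc x / Real.log x * G θ u x * (1 / (x ^ u - 1) ^ m)
      ≤ u / (u * Real.log x) ^ 2 * (1 / (u * Real.log x) ^ m) := by
        apply mul_le_mul h1 _ (by positivity) (by positivity)
        exact one_div_le_one_div_of_le (by positivity) (pow_le_pow_left₀ hy.le h2 _)
    _ = u / (u * Real.log x) ^ (m + 1 + 1) := by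
        have : (u * Real.log x) ^ (m + 1 + 1) = (u * Real.log x) ^ 2 * (u * Real.log x) ^ m := by
          rw [← pow_add]
          congr 1
          omega
        rw [this]
        field_simp

section count

variable {α : Type} (N : α → ℝ)

theorem largej (j : ℕ) (hj : 1 ≤ j) (η T0 : ℝ) (hη : 0 < η) (hT0 : 3 ≤ T0)
    (hsh : ∀ T : ℝ, T0 ≤ T → ∀ s : Finset α, (∀ v ∈ s, T < N v ∧ N v ≤ (1 + η) * T) →
        (s.card : ℝ) ≤ (1 + η) * η * (T / Real.log T))
    (T θ u : ℝ) (hT : T0 ≤ T) (hu : 0 < u) (hθ : θ ≤ 1 / 2) (hθu : θ * u ≤ 1)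
    (s : Finset α) (hs : ∀ v ∈ s, T < N v) :
    (j : ℝ) * ∑ v ∈ s, GG j θ u (N v) ≤ (1 + η) ^ 2 * (1 / (u * Real.log T) ^ j) *
      (1 + j * (u * Real.log (1 + η)) / (u * Real.log T)) := by
  classical
  have hT3 : 3 ≤ T := hT0.trans hT
  have hTpos : 0 < T := by linarith
  have hr1 : 1 < 1 + η := by linarith
  have hlr : 0 < Real.log (1 + η) := Real.log_pos hr1
  have hlT : 0 < Real.log T := Real.log_pos (by linarith)
  set r := 1 + η with hr
  set kf : α → ℕ := fun v => ⌈Real.logb r (N v / T)⌉₊ - 1 with hkf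
  have hk1 : ∀ v ∈ s, T * r ^ kf v < N v ∧ N v ≤ r * (T * r ^ kf v) := by
    intro v hv
    have h1 : 1 < N v / T := (one_lt_div hTpos).2 (hs v hv)
    have h2 : 0 < Real.logb r (N v / T) := Real.logb_pos hr1 h1
    have h3 : 0 < ⌈Real.logb r (N v / T)⌉₊ := Nat.ceil_pos.2 h2
    obtain ⟨m, hm⟩ : ∃ m, ⌈Real.logb r (N v / T)⌉₊ = m + 1 := ⟨_, (Nat.succ_pred_eq_of_pos h3).symm⟩
    have hkm : kf v = m := by
      rw [hkf]
      dsimp only
      rw [hm]
      rfl
    have h4 : Real.logb r (N v / T) ≤ (m + 1 : ℕ) := by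
      rw [← hm]
      exact Nat.le_ceil _
    have h5 : (m : ℝ) < Real.logb r (N v / T) := by
      rw [← Nat.lt_ceil, hm]
      omega
    have hNT : 0 < N v / T := by linarith
    rw [hkm]
    constructor
    · rw [Real.lt_logb_iff_rpow_lt hr1 hNT, Real.rpow_natCast, lt_div_iff₀ hTpos] at h5
      linarith
    · rw [Real.logb_le_iff_le_rpow hr1 hNT, Real.rpow_natCast, div_le_iff₀ hTpos] at h4
      calc N v ≤ r ^ (m + 1) * T := h4
        _ = r * (T * r ^ m) := by ring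
  set K := s.sup kf with hK
  have hmaps : ∀ v ∈ s, kf v ∈ range (K + 1) := by
    intro v hv
    rw [mem_range, Nat.lt_succ_iff]
    exact Finset.le_sup (f := kf) hv
  rw [← Finset.sum_fiberwise_of_maps_to hmaps]
  have hcell : ∀ k ∈ range (K + 1), ∑ v ∈ s with kf v = k, GG j θ u (N v) ≤
      r * η * (u / (u * Real.log T + k * (u * Real.log r)) ^ (j + 1)) := by
    intro k _
    have hTk : T ≤ T * r ^ k := by
      have := one_le_pow₀ (n := k) hr1.le
      nlinarith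
    have hTk1 : 1 < T * r ^ k := by linarith
    have h1 := hsh (T * r ^ k) (by linarith) (s.filter (fun v => kf v = k)) (by
      intro v hv
      rw [mem_filter] at hv
      have := hk1 v hv.1
      rw [hv.2] at this
      exact this)
    have h2 : ∑ v ∈ s with kf v = k, GG j θ u (N v) ≤
        ((s.filter (fun v => kf v = k)).card : ℝ) * GG j θ u (T * r ^ k) := by
      rw [← nsmul_eq_mul]
      refine Finset.sum_le_card_nsmul _ _ _ ?_
      intro v hv
      rw [mem_filter] at hv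
      have h3 := hk1 v hv.1
      rw [hv.2] at h3
      exact GG_anti hu hθu hTk1 h3.1.le
    have h4 := GG_val hj (θ := θ) hu hθ hTk1
    have hlog : Real.log (T * r ^ k) = Real.log T + k * Real.log r := by
      rw [Real.log_mul hTpos.ne' (by positivity), Real.log_pow]
    calc ∑ v ∈ s with kf v = k, GG j θ u (N v)
        ≤ ((s.filter (fun v => kf v = k)).card : ℝ) * GG j θ u (T * r ^ k) := h2
      _ ≤ (r * η * (T * r ^ k / Real.log (T * r ^ k))) * GG j θ u (T * r ^ k) :=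
          mul_le_mul_of_nonneg_right h1 (GG_nonneg hu hTk1)
      _ = r * η * (T * r ^ k / Real.log (T * r ^ k) * GG j θ u (T * r ^ k)) := by ring
      _ ≤ r * η * (u / (u * Real.log (T * r ^ k)) ^ (j + 1)) :=
          mul_le_mul_of_nonneg_left h4 (by positivity)
      _ = _ := by
          rw [hlog]
          congr 3
          ring
  have hj0 : (0 : ℝ) ≤ j := Nat.cast_nonneg _
  refine (mul_le_mul_of_nonneg_left (Finset.sum_le_sum hcell) hj0).trans ?_
  rw [← Finset.mul_sum]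
  set y := u * Real.log T with hy
  set h := u * Real.log r with hh
  have hy0 : 0 < y := by positivity
  have hh0 : 0 < h := by positivity
  have h5 := sum_pw j y h hy0 hh0 K
  have h6 : ∑ k ∈ range (K + 1), u / (y + k * h) ^ (j + 1) =
      1 / Real.log r * ∑ k ∈ range (K + 1), h / (y + k * h) ^ (j + 1) := by
    rw [Finset.mul_sum]
    refine Finset.sum_congr rfl fun k _ => ?_
    rw [hh]
    field_simp
  rw [h6]
  have h7 : (j : ℝ) * ∑ k ∈ range (K + 1), h / (y + k * h) ^ (j + 1) ≤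
      1 / y ^ j * (1 + j * h / y) := by
    refine h5.trans ?_
    have : 0 ≤ 1 / (y + K * h) ^ j := by positivity
    have e : 1 / y ^ j * (1 + j * h / y) = j * (h / y ^ (j + 1)) + 1 / y ^ j := by
      field_simp
      ring
    rw [e]
    linarith
  have h8 : η / Real.log r ≤ r := by
    have h9 := Real.one_sub_inv_le_log_of_pos (show 0 < r by linarith)
    rw [div_le_iff₀ hlr]
    have h10 : 1 - r⁻¹ = η / r := by
      rw [hr]
      field_simp
      ring
    rw [h10, div_le_iff₀ (by linarith)] at h9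
    linarith
  have h11 : 0 ≤ 1 / y ^ j * (1 + j * h / y) := by positivity
  calc (j : ℝ) * (r * η * (1 / Real.log r * ∑ k ∈ range (K + 1), h / (y + k * h) ^ (j + 1)))
      = r * (η / Real.log r) * (j * ∑ k ∈ range (K + 1), h / (y + k * h) ^ (j + 1)) := by ring
    _ ≤ r * (η / Real.log r) * (1 / y ^ j * (1 + j * h / y)) :=
        mul_le_mul_of_nonneg_left h7 (by positivity)
    _ ≤ r * r * (1 / y ^ j * (1 + j * h / y)) := by
        apply mul_le_mul_of_nonneg_right _ h11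
        exact mul_le_mul_of_nonneg_left h8 (by linarith)
    _ = _ := by ring

end count

/-- short intervals for the primes (prime number theorem) -/
theorem short_pr (η : ℝ) (hη : 0 < η) (hη1 : η ≤ 1) :
    ∃ T0 : ℝ, 3 ≤ T0 ∧ ∀ T : ℝ, T0 ≤ T → ∀ s : Finset {p : ℕ // p.Prime},
      (∀ v ∈ s, T < ((v.1 : ℕ) : ℝ) ∧ ((v.1 : ℕ) : ℝ) ≤ (1 + η) * T) →
        (s.card : ℝ) ≤ (1 + η) * η * (T / Real.log T) := by
  have hpit : Tendsto (fun n : ℕ =>
      (Set.ncard {v : {p : ℕ // p.Prime} | ((v.1 : ℕ) : ℝ) ≤ n} : ℝ) * Real.log n / n)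
      atTop (𝓝 1) := by
    have := Pool.Agent.Helper923.PNT.pi_tendsto.comp (tendsto_natCast_atTop_atTop (R := ℝ))
    refine this.congr fun N => ?_
    simp only [Function.comp, Nat.floor_natCast, Pool.Agent.N72.SZ.ncard_primes]
  have hcnt : ∀ (Y : ℝ) (s : Finset {p : ℕ // p.Prime}), 1 ≤ Y →
      (∀ v ∈ s, ((v.1 : ℕ) : ℝ) ≤ Y) → (s.card : ℝ) ≤ 1 * Y := by
    intro Y s hY hs
    rw [one_mul]
    have h1 : s.map (Function.Embedding.subtype _) ⊆ Finset.Icc 1 ⌊Y⌋₊ := by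
      intro p hp
      rw [Finset.mem_map] at hp
      obtain ⟨v, hv, rfl⟩ := hp
      rw [Finset.mem_Icc]
      exact ⟨v.2.one_lt.le, Nat.le_floor (hs v hv)⟩
    have h2 := Finset.card_le_card h1
    rw [Finset.card_map, Nat.card_Icc, Nat.add_sub_cancel] at h2
    calc (s.card : ℝ) ≤ (⌊Y⌋₊ : ℝ) := by exact_mod_cast h2
      _ ≤ Y := Nat.floor_le (by linarith)
  exact Pool.Agent.N163.RS.short (fun v : {p : ℕ // p.Prime} => ((v.1 : ℕ) : ℝ))
    (fun v => ⟨v.1, rfl⟩) hpit 1 hcnt η hη hη1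

/-- the same with finite sets of numbers -/
theorem large_pr (j : ℕ) (hj : 1 ≤ j) (η T0 : ℝ) (hη : 0 < η) (hT0 : 3 ≤ T0)
    (hsh : ∀ T : ℝ, T0 ≤ T → ∀ s : Finset {p : ℕ // p.Prime},
      (∀ v ∈ s, T < ((v.1 : ℕ) : ℝ) ∧ ((v.1 : ℕ) : ℝ) ≤ (1 + η) * T) →
        (s.card : ℝ) ≤ (1 + η) * η * (T / Real.log T))
    (T θ u : ℝ) (hT : T0 ≤ T) (hu : 0 < u) (hθ : θ ≤ 1 / 2) (hθu : θ * u ≤ 1)
    (s : Finset ℕ) (hsp : ∀ p ∈ s, p.Prime) (hs : ∀ p ∈ s, T < (p : ℝ)) :
    (j : ℝ) * ∑ p ∈ s, GG j θ u (p : ℝ) ≤ (1 + η) ^ 2 * (1 / (u * Real.log T) ^ j) *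
      (1 + j * (u * Real.log (1 + η)) / (u * Real.log T)) := by
  have h1 := largej (fun v : {p : ℕ // p.Prime} => ((v.1 : ℕ) : ℝ)) j hj η T0 hη hT0 hsh T θ u hT hu hθ
    hθu (s.subtype Nat.Prime) (fun v hv => hs v.1 (Finset.mem_subtype.1 hv))
  rwa [Finset.sum_subtype_of_mem (fun p : ℕ => GG j θ u (p : ℝ)) hsp] at h1

theorem small_ev (r : ℕ) (M κ η : ℝ) (hr : 1 ≤ r) (hM : 0 < M) (hκ : 0 < κ) (hη : 0 < η) :
    ∀ᶠ u : ℝ in 𝓝[>] 0, u ^ (-(r * (1 - η))) * Real.log (1 + M * u ^ (-(r : ℝ))) ≤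
      κ / (u * Real.log (1 / u)) ^ r := by
  have hr0 : (0 : ℝ) < r := by exact_mod_cast hr
  set a : ℝ := η / 4 with ha
  have ha0 : 0 < a := by positivity
  set Cc : ℝ := 1 + M with hCc
  have hCc0 : 0 < Cc := by positivity
  set D : ℝ := Cc ^ a / a * (1 / a ^ r) with hD
  have hη2 : 0 < (r : ℝ) * (η / 2) := by positivity
  have ht : Tendsto (fun u : ℝ => D * u ^ ((r : ℝ) * (η / 2))) (𝓝[>] 0) (𝓝 0) := by
    have h1 : Tendsto (fun u : ℝ => u ^ ((r : ℝ) * (η / 2))) (𝓝 0) (𝓝 ((0 : ℝ) ^ ((r : ℝ) * (η / 2)))) :=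
      (Real.continuous_rpow_const hη2.le).tendsto 0
    rw [Real.zero_rpow hη2.ne'] at h1
    have h2 : Tendsto (fun u : ℝ => D * u ^ ((r : ℝ) * (η / 2))) (𝓝[>] 0) (𝓝 (D * 0)) :=
      (h1.mono_left nhdsWithin_le_nhds).const_mul D
    rwa [mul_zero] at h2
  have h3 : ∀ᶠ u : ℝ in 𝓝[>] 0, D * u ^ ((r : ℝ) * (η / 2)) < κ :=
    ht.eventually (gt_mem_nhds hκ)
  filter_upwards [h3, Ioo_mem_nhdsGT (zero_lt_one' ℝ)] with u hu1 hu2
  obtain ⟨hu0, hu01⟩ := hu2
  have hlu : 0 < Real.log (1 / u) := Real.log_pos ((one_lt_div hu0).2 hu01)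
  rw [le_div_iff₀ (by positivity)]
  refine le_trans ?_ hu1.le
  have e1 : u * Real.log (1 / u) ≤ u ^ (1 - a) / a := by
    have h4 := Real.log_le_rpow_div (x := 1 / u) (by positivity) ha0
    have h5 : (1 / u) ^ a = u ^ (-a) := by
      rw [one_div, Real.inv_rpow hu0.le, Real.rpow_neg hu0.le]
    rw [h5] at h4
    have h6 : u ^ (1 - a) = u * u ^ (-a) := by
      rw [sub_eq_add_neg, Real.rpow_add hu0, Real.rpow_one]
    rw [h6, mul_div_assoc]
    exact mul_le_mul_of_nonneg_left h4 hu0.le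
  have e2 : (u * Real.log (1 / u)) ^ r ≤ u ^ ((1 - a) * r) * (1 / a ^ r) := by
    have h4 := pow_le_pow_left₀ (by positivity) e1 r
    rw [div_pow, ← Real.rpow_natCast (u ^ (1 - a)) r, ← Real.rpow_mul hu0.le] at h4
    rwa [mul_one_div]
  have e3 : Real.log (1 + M * u ^ (-(r : ℝ))) ≤ Cc ^ a / a * u ^ (-(r * a)) := by
    have hp : 0 < u ^ (-(r : ℝ)) := Real.rpow_pos_of_pos hu0 _
    have hp1 : 1 ≤ u ^ (-(r : ℝ)) :=
      Real.one_le_rpow_of_pos_of_le_one_of_nonpos hu0 hu01.le (by linarith)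
    have h4 : 1 + M * u ^ (-(r : ℝ)) ≤ Cc * u ^ (-(r : ℝ)) := by
      rw [hCc]
      nlinarith
    have h5 := Real.log_le_rpow_div (x := Cc * u ^ (-(r : ℝ))) (by positivity) ha0
    rw [Real.mul_rpow hCc0.le hp.le, ← Real.rpow_mul hu0.le] at h5
    refine (Real.log_le_log (by positivity) h4).trans (h5.trans (le_of_eq ?_))
    rw [show (-(r : ℝ) * a) = -(r * a) by ring]
    ring
  have e0 : 0 ≤ Real.log (1 + M * u ^ (-(r : ℝ))) := Real.log_nonneg (by
    have : 0 ≤ M * u ^ (-(r : ℝ)) := by positivity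
    linarith)
  have hp1 : 0 < u ^ (-(r * (1 - η))) := Real.rpow_pos_of_pos hu0 _
  calc u ^ (-(r * (1 - η))) * Real.log (1 + M * u ^ (-(r : ℝ))) * (u * Real.log (1 / u)) ^ r
      ≤ u ^ (-(r * (1 - η))) * (Cc ^ a / a * u ^ (-(r * a))) * (u ^ ((1 - a) * r) * (1 / a ^ r)) := by
        gcongr
    _ = D * (u ^ (-(r * (1 - η))) * u ^ (-(r * a)) * u ^ ((1 - a) * r)) := by
        rw [hD]
        ring
    _ = D * u ^ ((r : ℝ) * (η / 2)) := by
        rw [← Real.rpow_add hu0, ← Real.rpow_add hu0]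
        congr 2
        rw [ha]
        ring

theorem card_pr (V : ℝ) (hV : 0 ≤ V) (s : Finset ℕ) (hsp : ∀ p ∈ s, p.Prime) (hs : ∀ p ∈ s, (p : ℝ) ≤ V) :
    (s.card : ℝ) ≤ V := by
  have h1 : s ⊆ Finset.Icc 1 ⌊V⌋₊ := by
    intro p hp
    rw [Finset.mem_Icc]
    exact ⟨(hsp p hp).one_lt.le, Nat.le_floor (hs p hp)⟩
  have h2 := Finset.card_le_card h1
  rw [Nat.card_Icc, Nat.add_sub_cancel] at h2
  calc (s.card : ℝ) ≤ (⌊V⌋₊ : ℝ) := by exact_mod_cast h2
    _ ≤ V := Nat.floor_le hV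

theorem choose_eta (r : ℕ) (ε : ℝ) (hε : 0 < ε) : ∃ η : ℝ, 0 < η ∧ η ≤ 1 / 4 ∧
    (1 + η) ^ 2 * (1 + r * η) ≤ (1 + ε / 3) * (1 - η) ^ r ∧ 1 / 2 ≤ (1 - η) ^ r := by
  have h1 : Tendsto (fun η : ℝ => (1 + η) ^ 2 * (1 + r * η) - (1 + ε / 3) * (1 - η) ^ r) (𝓝[>] 0)
      (𝓝 ((1 + 0) ^ 2 * (1 + r * 0) - (1 + ε / 3) * (1 - 0) ^ r)) := by
    have hc : Continuous (fun η : ℝ => (1 + η) ^ 2 * (1 + r * η) - (1 + ε / 3) * (1 - η) ^ r) := by
      fun_prop
    exact (hc.tendsto 0).mono_left nhdsWithin_le_nhds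
  have h2 : Tendsto (fun η : ℝ => (1 - η) ^ r) (𝓝[>] 0) (𝓝 ((1 - 0) ^ r)) := by
    have hc : Continuous (fun η : ℝ => (1 - η) ^ r) := by fun_prop
    exact (hc.tendsto 0).mono_left nhdsWithin_le_nhds
  have h3 : ∀ᶠ η : ℝ in 𝓝[>] 0, (1 + η) ^ 2 * (1 + r * η) - (1 + ε / 3) * (1 - η) ^ r < 0 := by
    apply h1.eventually (gt_mem_nhds _)
    simp
    linarith
  have h4 : ∀ᶠ η : ℝ in 𝓝[>] 0, 1 / 2 < (1 - η) ^ r := by
    apply h2.eventually (lt_mem_nhds _)
    simp
    norm_num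
  obtain ⟨η, h5, h6, h7⟩ := (h3.and (h4.and (Ioo_mem_nhdsGT (show (0 : ℝ) < 1 / 4 by norm_num)))).exists
  exact ⟨η, h7.1, h7.2.le, by linarith, h6.le⟩

theorem eupn : S_EUPN := by
  classical
  intro r t N μ θ ε hr ht hμ hθ0 hθ hε
  obtain ⟨η, hη0, hη1, hη2, hη3⟩ := choose_eta r ε hε
  obtain ⟨T0, hT0, hsh⟩ := short_pr η hη0 (by linarith)
  have hr0 : (0 : ℝ) < r := by exact_mod_cast hr
  have hr1 : (1 : ℝ) ≤ r := by exact_mod_cast hr
  have ht0 : (0 : ℝ) < t := by exact_mod_cast ht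
  have hN0 : (0 : ℝ) ≤ N := Nat.cast_nonneg _
  have hl2 : 0 < Real.log 2 := Real.log_pos (by norm_num)
  have hl21 : Real.log 2 ≤ 1 := by
    have := Real.log_two_lt_d9
    linarith
  set C1 : ℝ := (t + 2 * ((r : ℝ) - 1) * N) / (Real.log 2) ^ r with hC1
  have hC10 : 0 < C1 := by
    rw [hC1]
    apply div_pos _ (by positivity)
    have : 0 ≤ 2 * ((r : ℝ) - 1) * N := by
      apply mul_nonneg _ hN0
      linarith
    linarith
  set κ : ℝ := (ε / 3) * μ * t / (r * (r : ℝ) ^ r) with hκ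
  have hκ0 : 0 < κ := by positivity
  have hsm := small_ev r (μ * C1) κ η hr (by positivity) hκ0 hη0
  have hV : ∀ᶠ u : ℝ in 𝓝[>] 0, u ^ ((r : ℝ) * (1 - η)) < 1 / T0 := by
    have hpos : 0 < (r : ℝ) * (1 - η) := mul_pos hr0 (by linarith)
    have h1 : Tendsto (fun u : ℝ => u ^ ((r : ℝ) * (1 - η))) (𝓝 0)
        (𝓝 ((0 : ℝ) ^ ((r : ℝ) * (1 - η)))) :=
      (Real.continuous_rpow_const hpos.le).tendsto 0
    rw [Real.zero_rpow hpos.ne'] at h1
    exact (h1.mono_left nhdsWithin_le_nhds).eventually (gt_mem_nhds (by positivity))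
  have hul : Tendsto (fun u : ℝ => u * Real.log (1 / u)) (𝓝[>] 0) (𝓝 0) := by
    have h1 := tendsto_log_mul_rpow_nhdsGT_zero (r := 1) one_pos
    have h2 : Tendsto (fun u : ℝ => -(Real.log u * u ^ (1 : ℝ))) (𝓝[>] 0) (𝓝 (-0)) := h1.neg
    rw [neg_zero] at h2
    refine h2.congr fun u => ?_
    rw [one_div, Real.log_inv, Real.rpow_one]
    ring
  have hy1 : ∀ᶠ u : ℝ in 𝓝[>] 0, (16 * ((r : ℝ) - 1) * N * r * (r * (1 - η))) * (u * Real.log (1 / u)) <
      ε / 3 * t := by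
    have h1 := hul.const_mul (16 * ((r : ℝ) - 1) * N * r * (r * (1 - η)))
    rw [mul_zero] at h1
    exact h1.eventually (gt_mem_nhds (by positivity))
  have hy2 : ∀ᶠ u : ℝ in 𝓝[>] 0, (r * (1 - η)) * (u * Real.log (1 / u)) < 1 := by
    have h1 := hul.const_mul (r * (1 - η))
    rw [mul_zero] at h1
    exact h1.eventually (gt_mem_nhds one_pos)
  have hall := hsm.and (hV.and (hy1.and hy2))
  obtain ⟨u1, hu1, hsub⟩ := mem_nhdsGT_iff_exists_Ioo_subset.1 hall
  refine ⟨min u1 (1 / 4), lt_min hu1 (by norm_num), (min_le_right _ _).trans_lt (by norm_num), ?_⟩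
  intro u hu0 hu s hsp
  have huu : u < u1 := hu.trans_le (min_le_left _ _)
  have hu4 : u < 1 / 4 := hu.trans_le (min_le_right _ _)
  obtain ⟨hsmu, hVu, hy1u, hy2u⟩ := hsub ⟨hu0, huu⟩
  have hθu : θ * u ≤ 1 := by nlinarith
  set V : ℝ := u ^ (-((r : ℝ) * (1 - η))) with hVdef
  have hp : 0 < u ^ ((r : ℝ) * (1 - η)) := Real.rpow_pos_of_pos hu0 _
  have hVT : T0 ≤ V := by
    rw [hVdef, Real.rpow_neg hu0.le]
    rw [lt_div_iff₀ (by linarith)] at hVu
    rw [← one_div, le_div_iff₀ hp]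
    linarith
  have hV3 : 3 ≤ V := hT0.trans hVT
  set L : ℝ := Real.log (1 / u) with hL
  have hlV : Real.log V = r * (1 - η) * L := by
    rw [hVdef, Real.log_rpow hu0, hL, one_div, Real.log_inv]
    ring
  have hlV1 : 1 ≤ Real.log V := by
    rw [Real.le_log_iff_exp_le (by linarith)]
    have := Real.exp_one_lt_d9
    linarith
  have hL0 : 0 < L := Real.log_pos ((one_lt_div hu0).2 (by linarith))
  set y0 : ℝ := u * Real.log V with hy0
  have hy00 : 0 < y0 := by positivity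
  have hy0e : y0 = (r * (1 - η)) * (u * L) := by
    rw [hy0, hlV]
    ring
  have hy01 : y0 ≤ 1 := by
    rw [hy0e]
    exact hy2u.le
  have hruL : 0 < (r * (u * L)) ^ r := by positivity
  have hy0r : y0 ^ r = (1 - η) ^ r * (r * (u * L)) ^ r := by
    rw [hy0e, ← mul_pow]
    congr 1
    ring
  -- the terms
  set f : ℕ → ℝ := fun p => μ * (p : ℝ) ^ (θ * u - 1) * (t / ((p : ℝ) ^ u - 1) ^ r +
      ((r : ℝ) - 1) * N * (1 / ((p : ℝ) ^ u - 1) + 1 / ((p : ℝ) ^ u - 1) ^ (r - 1))) with hf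
  have hrm : 0 ≤ (r : ℝ) - 1 := by linarith
  have hq0 : ∀ p : ℕ, p.Prime → 0 < (p : ℝ) ^ u - 1 := by
    intro p hp
    exact pow_sub_pos hu0 (by exact_mod_cast hp.one_lt)
  have hf0 : ∀ p ∈ s, 0 ≤ f p := by
    intro p hps
    have h1 := hq0 p (hsp p hps)
    have h2 : 0 ≤ ((r : ℝ) - 1) * N * (1 / ((p : ℝ) ^ u - 1) + 1 / ((p : ℝ) ^ u - 1) ^ (r - 1)) := by
      apply mul_nonneg (mul_nonneg hrm hN0)
      positivity
    have h3 : 0 ≤ t / ((p : ℝ) ^ u - 1) ^ r := by positivity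
    rw [hf]
    dsimp only
    apply mul_nonneg (mul_nonneg hμ.le (Real.rpow_nonneg (Nat.cast_nonneg _) _))
    linarith
  have hfsmall : ∀ p ∈ s, f p ≤ μ * C1 * u ^ (-(r : ℝ)) := by
    intro p hps
    have hpp := hsp p hps
    have h1 := hq0 p hpp
    have hp2 : (2 : ℝ) ≤ p := by exact_mod_cast hpp.two_le
    set q : ℝ := (p : ℝ) ^ u - 1 with hq
    set w : ℝ := u * Real.log 2 with hw
    have hw0 : 0 < w := by positivity
    have hw1 : w ≤ 1 := by nlinarith
    have hwq : w ≤ q := by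
      have h2 := sub_one_ge (u := u) (x := (p : ℝ)) (by linarith)
      have h3 : Real.log 2 ≤ Real.log p := Real.log_le_log (by norm_num) hp2
      rw [hw, hq]
      nlinarith
    have hj : ∀ j : ℕ, j ≤ r → 1 / q ^ j ≤ 1 / w ^ r := by
      intro j hj
      calc 1 / q ^ j ≤ 1 / w ^ j :=
            one_div_le_one_div_of_le (by positivity) (pow_le_pow_left₀ hw0.le hwq _)
        _ ≤ 1 / w ^ r :=
            one_div_le_one_div_of_le (by positivity) (pow_le_pow_of_le_one hw0.le hw1 hj)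
    have h4 : (p : ℝ) ^ (θ * u - 1) ≤ 1 :=
      Real.rpow_le_one_of_one_le_of_nonpos (by linarith) (by linarith)
    have h5 : t / q ^ r + ((r : ℝ) - 1) * N * (1 / q + 1 / q ^ (r - 1)) ≤
        (t + 2 * ((r : ℝ) - 1) * N) * (1 / w ^ r) := by
      have h6 := hj r le_rfl
      have h7 := hj 1 hr
      rw [pow_one] at h7
      have h8 := hj (r - 1) (by omega)
      have h9 : (t : ℝ) / q ^ r ≤ t * (1 / w ^ r) := by
        rw [div_eq_mul_one_div]
        exact mul_le_mul_of_nonneg_left h6 ht0.le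
      have h10 : ((r : ℝ) - 1) * N * (1 / q + 1 / q ^ (r - 1)) ≤
          ((r : ℝ) - 1) * N * (1 / w ^ r + 1 / w ^ r) :=
        mul_le_mul_of_nonneg_left (add_le_add h7 h8) (mul_nonneg hrm hN0)
      calc _ ≤ t * (1 / w ^ r) + ((r : ℝ) - 1) * N * (1 / w ^ r + 1 / w ^ r) := add_le_add h9 h10
        _ = _ := by ring
    have h6 : (t + 2 * ((r : ℝ) - 1) * N) * (1 / w ^ r) = C1 * u ^ (-(r : ℝ)) := by
      rw [hC1, hw, mul_pow, Real.rpow_neg hu0.le, Real.rpow_natCast]
      field_simp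
    have h7 : 0 ≤ t / q ^ r + ((r : ℝ) - 1) * N * (1 / q + 1 / q ^ (r - 1)) := by
      have h2 : 0 ≤ ((r : ℝ) - 1) * N * (1 / q + 1 / q ^ (r - 1)) := by
        apply mul_nonneg (mul_nonneg hrm hN0)
        positivity
      have h3 : 0 ≤ t / q ^ r := by positivity
      linarith
    calc f p = μ * (p : ℝ) ^ (θ * u - 1) * (t / q ^ r +
          ((r : ℝ) - 1) * N * (1 / q + 1 / q ^ (r - 1))) := rfl
      _ ≤ μ * 1 * (t / q ^ r + ((r : ℝ) - 1) * N * (1 / q + 1 / q ^ (r - 1))) := by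
          apply mul_le_mul_of_nonneg_right _ h7
          exact mul_le_mul_of_nonneg_left h4 hμ.le
      _ ≤ μ * 1 * (C1 * u ^ (-(r : ℝ))) := by
          rw [← h6]
          exact mul_le_mul_of_nonneg_left h5 (by linarith)
      _ = _ := by ring
  have hgoal : (1 + ε) * μ * t / (r * (r * (u * L)) ^ r) =
      (ε / 3) * μ * t / (r * (r * (u * L)) ^ r) + ((1 + ε / 3) * μ * t / (r * (r * (u * L)) ^ r) +
        (ε / 3) * μ * t / (r * (r * (u * L)) ^ r)) := by ring
  show ∑ p ∈ s, Real.log (1 + f p) ≤ (1 + ε) * μ * t / (r * (r * (u * L)) ^ r)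
  rw [hgoal, ← Finset.sum_filter_add_sum_filter_not s (fun p => (p : ℝ) ≤ V)]
  apply add_le_add
  · have e0 : 0 ≤ Real.log (1 + μ * C1 * u ^ (-(r : ℝ))) := Real.log_nonneg (by
      have : 0 ≤ μ * C1 * u ^ (-(r : ℝ)) := by positivity
      linarith)
    calc ∑ p ∈ s.filter (fun p : ℕ => (p : ℝ) ≤ V), Real.log (1 + f p)
        ≤ ∑ p ∈ s.filter (fun p : ℕ => (p : ℝ) ≤ V), Real.log (1 + μ * C1 * u ^ (-(r : ℝ))) := by
          refine Finset.sum_le_sum fun p hps => ?_
          have h1 := hf0 p (mem_filter.1 hps).1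
          have h2 := hfsmall p (mem_filter.1 hps).1
          exact Real.log_le_log (by linarith) (by linarith)
      _ = ((s.filter (fun p : ℕ => (p : ℝ) ≤ V)).card : ℝ) * Real.log (1 + μ * C1 * u ^ (-(r : ℝ))) := by
          rw [Finset.sum_const, nsmul_eq_mul]
      _ ≤ V * Real.log (1 + μ * C1 * u ^ (-(r : ℝ))) := by
          apply mul_le_mul_of_nonneg_right _ e0
          exact card_pr V (by linarith) _ (fun p hps => hsp p (mem_filter.1 hps).1)
            (fun p hps => (mem_filter.1 hps).2)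
      _ ≤ κ / (u * L) ^ r := hsmu
      _ = (ε / 3) * μ * t / (r * (r * (u * L)) ^ r) := by
          rw [hκ, mul_pow (r : ℝ) (u * L) r]
          field_simp
  · set s' := s.filter (fun p : ℕ => ¬ (p : ℝ) ≤ V) with hs'
    have hs'p : ∀ p ∈ s', p.Prime := fun p hps => hsp p (mem_filter.1 hps).1
    have hs'V : ∀ p ∈ s', V < (p : ℝ) := fun p hps => not_le.1 (mem_filter.1 hps).2
    have hG0 : ∀ j : ℕ, 0 ≤ ∑ p ∈ s', GG j θ u (p : ℝ) := by
      intro j
      exact Finset.sum_nonneg fun p hps => GG_nonneg hu0 (by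
        have := hs'V p hps
        linarith)
    have hlog1 : u * Real.log (1 + η) / y0 ≤ η := by
      rw [div_le_iff₀ hy00, hy0]
      have h9 := Real.log_le_sub_one_of_pos (x := 1 + η) (by linarith)
      have h10 : Real.log (1 + η) ≤ η := by linarith
      nlinarith [mul_nonneg hη0.le (sub_nonneg.2 hlV1)]
    have hlarge : ∀ j : ℕ, 1 ≤ j → (j : ℝ) * ∑ p ∈ s', GG j θ u (p : ℝ) ≤
        (1 + η) ^ 2 * (1 + j * η) / y0 ^ j := by
      intro j hj
      have h1 := large_pr j hj η T0 hη0 hT0 hsh V θ u hVT hu0 hθ hθu s' hs'p hs'V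
      rw [← hy0] at h1
      refine h1.trans ?_
      have h2 : (1 : ℝ) + j * (u * Real.log (1 + η)) / y0 ≤ 1 + j * η := by
        have h3 : (j : ℝ) * (u * Real.log (1 + η)) / y0 = j * (u * Real.log (1 + η) / y0) := by ring
        rw [h3]
        have := mul_le_mul_of_nonneg_left hlog1 (Nat.cast_nonneg (α := ℝ) j)
        linarith
      calc (1 + η) ^ 2 * (1 / y0 ^ j) * (1 + j * (u * Real.log (1 + η)) / y0)
          ≤ (1 + η) ^ 2 * (1 / y0 ^ j) * (1 + j * η) := mul_le_mul_of_nonneg_left h2 (by positivity)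
        _ = _ := by ring
    have hmain : μ * t * ∑ p ∈ s', GG r θ u (p : ℝ) ≤ (1 + ε / 3) * μ * t / (r * (r * (u * L)) ^ r) := by
      have h1 := hlarge r hr
      have h2 : (1 + η) ^ 2 * (1 + r * η) / y0 ^ r ≤ (1 + ε / 3) / (r * (u * L)) ^ r := by
        have h1e : 0 < (1 - η) ^ r := by linarith
        calc (1 + η) ^ 2 * (1 + r * η) / y0 ^ r ≤ (1 + ε / 3) * (1 - η) ^ r / y0 ^ r :=
              div_le_div_of_nonneg_right hη2 (by positivity)
          _ = (1 + ε / 3) / (r * (u * L)) ^ r := by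
              rw [hy0r]
              field_simp
      have h3 : ∑ p ∈ s', GG r θ u (p : ℝ) ≤ (1 + ε / 3) / (r * (u * L)) ^ r / r := by
        rw [le_div_iff₀ hr0, mul_comm]
        exact h1.trans h2
      calc μ * t * ∑ p ∈ s', GG r θ u (p : ℝ) ≤ μ * t * ((1 + ε / 3) / (r * (u * L)) ^ r / r) :=
            mul_le_mul_of_nonneg_left h3 (by positivity)
        _ = _ := by
            field_simp
    have hmid : μ * (((r : ℝ) - 1) * N * (∑ p ∈ s', GG 1 θ u (p : ℝ) + ∑ p ∈ s', GG (r - 1) θ u (p : ℝ))) ≤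
        (ε / 3) * μ * t / (r * (r * (u * L)) ^ r) := by
      rcases Nat.lt_or_ge r 2 with hr2 | hr2
      · have : r = 1 := by omega
        subst this
        have h1 : ((1 : ℕ) : ℝ) - 1 = 0 := by norm_num
        rw [h1, zero_mul, zero_mul, mul_zero]
        positivity
      · have hj : ∀ j : ℕ, 1 ≤ j → j ≤ r - 1 → ∑ p ∈ s', GG j θ u (p : ℝ) ≤ 4 / y0 ^ (r - 1) := by
          intro j hj1 hj2
          have hj0 : (1 : ℝ) ≤ j := by exact_mod_cast hj1
          have h1 := hlarge j hj1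
          have h2 : (1 + η) ^ 2 * (1 + j * η) ≤ j * 4 := by
            have h3 : (1 + η) ^ 2 ≤ 2 := by nlinarith
            have h4 : 1 + j * η ≤ 2 * j := by nlinarith
            calc (1 + η) ^ 2 * (1 + j * η) ≤ 2 * (2 * j) := by
                  apply mul_le_mul h3 h4 (by positivity) (by norm_num)
              _ = _ := by ring
          have h3 : (1 + η) ^ 2 * (1 + j * η) / y0 ^ j ≤ j * (4 / y0 ^ j) := by
            rw [← mul_div_assoc]
            exact div_le_div_of_nonneg_right h2 (by positivity)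
          have h4 := le_of_mul_le_mul_left (h1.trans h3) (by linarith)
          refine h4.trans ?_
          exact div_le_div_of_nonneg_left (by norm_num) (by positivity)
            (pow_le_pow_of_le_one hy00.le hy01 hj2)
        have h1 := hj 1 le_rfl (by omega)
        have h2 := hj (r - 1) (by omega) le_rfl
        have h3 : 1 / y0 ^ (r - 1) = y0 / y0 ^ r := by
          have : y0 ^ r = y0 ^ (r - 1) * y0 := by
            rw [← pow_succ]
            congr 1
            omega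
          rw [this]
          field_simp
        have h4 : ∑ p ∈ s', GG 1 θ u (p : ℝ) + ∑ p ∈ s', GG (r - 1) θ u (p : ℝ) ≤ 8 * (y0 / y0 ^ r) := by
          rw [← h3]
          have e : 4 / y0 ^ (r - 1) = 4 * (1 / y0 ^ (r - 1)) := by ring
          rw [e] at h1 h2
          linarith
        have h5 : y0 / y0 ^ r ≤ 2 * y0 / (r * (u * L)) ^ r := by
          rw [hy0r, div_le_div_iff₀ (by positivity) hruL]
          have h6 : y0 * (r * (u * L)) ^ r ≤ 2 * (1 - η) ^ r * (y0 * (r * (u * L)) ^ r) := by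
            have h7 : 0 ≤ y0 * (r * (u * L)) ^ r := by positivity
            nlinarith
          calc y0 * (r * (u * L)) ^ r ≤ 2 * (1 - η) ^ r * (y0 * (r * (u * L)) ^ r) := h6
            _ = _ := by ring
        have h6 : 0 ≤ ((r : ℝ) - 1) * N := mul_nonneg hrm hN0
        calc μ * (((r : ℝ) - 1) * N * (∑ p ∈ s', GG 1 θ u (p : ℝ) + ∑ p ∈ s', GG (r - 1) θ u (p : ℝ)))
            ≤ μ * (((r : ℝ) - 1) * N * (8 * (2 * y0 / (r * (u * L)) ^ r))) := by
              apply mul_le_mul_of_nonneg_left _ hμ.le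
              apply mul_le_mul_of_nonneg_left _ h6
              linarith
          _ = μ * (16 * ((r : ℝ) - 1) * N * r * (r * (1 - η)) * (u * L)) / (r * (r * (u * L)) ^ r) := by
              rw [hy0e]
              field_simp
              ring
          _ ≤ μ * (ε / 3 * t) / (r * (r * (u * L)) ^ r) := by
              apply div_le_div_of_nonneg_right _ (by positivity)
              exact mul_le_mul_of_nonneg_left hy1u.le hμ.le
          _ = _ := by ring
    calc ∑ p ∈ s', Real.log (1 + f p) ≤ ∑ p ∈ s', f p := by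
          refine Finset.sum_le_sum fun p hps => ?_
          have h1 := hf0 p (mem_filter.1 hps).1
          have h2 := Real.log_le_sub_one_of_pos (x := 1 + f p) (by linarith)
          linarith
      _ = μ * t * ∑ p ∈ s', GG r θ u (p : ℝ) + μ * (((r : ℝ) - 1) * N *
            (∑ p ∈ s', GG 1 θ u (p : ℝ) + ∑ p ∈ s', GG (r - 1) θ u (p : ℝ))) := by
          rw [← Finset.sum_add_distrib, Finset.mul_sum, Finset.mul_sum, Finset.mul_sum,
            ← Finset.sum_add_distrib]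
          refine Finset.sum_congr rfl fun p _ => ?_
          rw [hf]
          unfold GG
          ring
      _ ≤ _ := add_le_add hmain hmid

end Pool.Agent.N475.NT
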