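import Pool.Agent.N906.NT.Stm

/-!
# Leaf NT/RED (helper906): the reduction of a vector of divisors
-/

set_option autoImplicit false

namespace Pool.Agent.N475.NT

open Finset Pool.Agent.N906.NT

/-- the product after removing a prime at one place -/
theorem pr_upd {n : ℕ} (D : Fin n → ℕ) (i : Fin n) (p : ℕ) (h : p ∣ D i) :
    p * pr (Function.update D i (D i / p)) = pr D := by
  classical
  unfold pr
  rw [← Finset.mul_prod_erase univ (Function.update D i (D i / p)) (mem_univ i),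
    ← Finset.mul_prod_erase univ D (mem_univ i), Function.update_self, ← mul_assoc,
    Nat.mul_div_cancel' h]
  congr 1
  apply Finset.prod_congr rfl
  intro k hk
  rw [Function.update_of_ne (Finset.ne_of_mem_erase hk)]

theorem pr_pos {n : ℕ} {Δ : Finset (Finset (Fin n))} {D : Fin n → ℕ} (h : Tp Δ D) : 0 < pr D :=
  Finset.prod_pos fun i _ => h.1 i

theorem tp_upd {n : ℕ} {Δ : Finset (Finset (Fin n))} {r t : ℕ} (hC : Cx Δ r t) {D : Fin n → ℕ} (h : Tp Δ D)
    (i : Fin n) (p : ℕ) (_hp : p.Prime) (hd : p ∣ D i) : Tp Δ (Function.update D i (D i / p)) := by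
  classical
  have hdvd : ∀ k, Function.update D i (D i / p) k ∣ D k := by
    intro k
    by_cases hk : k = i
    · subst hk
      rw [Function.update_self]
      exact Nat.div_dvd_of_dvd hd
    · rw [Function.update_of_ne hk]
  refine ⟨fun k => ?_, fun q hq => ?_⟩
  · exact Nat.pos_of_dvd_of_pos (hdvd k) (h.1 k)
  · refine hC.2.2.2.1 _ (h.2 q hq) _ ?_
    intro k hk
    rw [mem_filter] at hk ⊢
    exact ⟨mem_univ _, hk.2.trans (hdvd k)⟩

theorem rr_pos {n : ℕ} (D : Fin n → ℕ) : 0 < rr D :=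
  Finset.prod_pos fun _ hp => (Nat.prime_of_mem_primeFactors hp).pos

/-- the gain if `p ^ 2` divides the product -/
theorem gn_sq {n : ℕ} (D D' : Fin n → ℕ) (p : ℕ) (hp : p.Prime) (h0 : 0 < pr D') (h : p * pr D' = pr D)
    (h2 : p ∣ pr D') : gn D' = gn D / p := by
  have hrr : rr D' = rr D := by
    unfold rr
    rw [← h, Nat.primeFactors_mul hp.ne_zero h0.ne', hp.primeFactors, Finset.union_eq_right.2]
    rw [Finset.singleton_subset_iff]
    exact Nat.mem_primeFactors.2 ⟨hp, h2, h0.ne'⟩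
  have hp0 : (p : ℝ) ≠ 0 := by exact_mod_cast hp.ne_zero
  unfold gn
  rw [hrr, ← h]
  push_cast
  field_simp

/-- the gain if `p ^ 2` does not divide the product -/
theorem gn_nsq {n : ℕ} (D D' : Fin n → ℕ) (p : ℕ) (hp : p.Prime) (h0 : 0 < pr D') (h : p * pr D' = pr D)
    (h2 : ¬ p ∣ pr D') : gn D' = gn D := by
  have hrr : rr D = p * rr D' := by
    unfold rr
    rw [← h, Nat.primeFactors_mul hp.ne_zero h0.ne', hp.primeFactors, Finset.prod_union,
      Finset.prod_singleton]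
    rw [Finset.disjoint_singleton_left]
    intro h3
    exact h2 (Nat.dvd_of_mem_primeFactors h3)
  have hp0 : (p : ℝ) ≠ 0 := by exact_mod_cast hp.ne_zero
  have hr0 : (rr D' : ℝ) ≠ 0 := by exact_mod_cast (rr_pos D').ne'
  unfold gn
  rw [hrr, ← h]
  push_cast
  field_simp

theorem red : S_RED := by
  intro n Δ r t hC E T hE hT hTE
  classical
  have hP : ∃ m : ℕ, ∃ D : Fin n → ℕ, (∀ i, D i ∣ E i) ∧ Tp Δ D ∧ T ≤ gn D ∧ pr D = m :=
    ⟨pr E, E, fun i => dvd_rfl, hE, hTE, rfl⟩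
  obtain ⟨D, hDE, hTp, hTD, hpr⟩ := Nat.find_spec hP
  have hmin : ∀ D' : Fin n → ℕ, (∀ i, D' i ∣ E i) → Tp Δ D' → T ≤ gn D' → pr D ≤ pr D' := by
    intro D' h1 h2 h3
    rw [hpr]
    exact Nat.find_min' hP ⟨D', h1, h2, h3, rfl⟩
  -- the step
  have hstep : ∀ p : ℕ, p.Prime → p ∣ pr D → ∃ D' : Fin n → ℕ, (∀ i, D' i ∣ E i) ∧ Tp Δ D' ∧
      p * pr D' = pr D := by
    intro p hp hpd
    obtain ⟨i, -, hi⟩ := (Prime.dvd_finsetProd_iff hp.prime _).1 hpd
    refine ⟨Function.update D i (D i / p), fun k => ?_, tp_upd hC hTp i p hp hi, pr_upd D i p hi⟩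
    by_cases hk : k = i
    · subst hk
      rw [Function.update_self]
      exact (Nat.div_dvd_of_dvd hi).trans (hDE k)
    · rw [Function.update_of_ne hk]
      exact hDE k
  have hlt : ∀ (p : ℕ) (D' : Fin n → ℕ), p.Prime → Tp Δ D' → p * pr D' = pr D → pr D' < pr D := by
    intro p D' hp h1 h2
    have h3 := pr_pos h1
    rw [← h2]
    nlinarith [hp.two_le]
  have hSq : Sq D := by
    intro p hp hpd
    obtain ⟨D', h1, h2, h3⟩ := hstep p hp hpd
    by_contra hcon
    have h4 : ¬ p ∣ pr D' := by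
      intro h5
      apply hcon
      rw [← h3, pow_two]
      exact Nat.mul_dvd_mul_left p h5
    have h5 := gn_nsq D D' p hp (pr_pos h2) h3 h4
    have h6 := hmin D' h1 h2 (by rw [h5]; exact hTD)
    exact absurd (hlt p D' hp h2 h3) (not_lt.2 h6)
  refine ⟨D, hDE, hTp, hSq, hTD, fun p hp hpd => ?_⟩
  obtain ⟨D', h1, h2, h3⟩ := hstep p hp hpd
  have h4 : p ∣ pr D' := by
    have h5 := hSq p hp hpd
    rw [← h3, pow_two] at h5
    exact Nat.dvd_of_mul_dvd_mul_left hp.pos h5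
  have h5 := gn_sq D D' p hp (pr_pos h2) h3 h4
  by_contra hcon
  push Not at hcon
  have h6 := hmin D' h1 h2 (by rw [h5]; exact hcon)
  exact absurd (hlt p D' hp h2 h3) (not_lt.2 h6)

end Pool.Agent.N475.NT
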