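import Mathlib

set_option autoImplicit false

/-!
Size colourings: `x - 2 y = p z` has no large monochromatic solutions when `p` is nonlinear.
-/

namespace Pool.Agent.N475.SizeCol

open Polynomial Filter

/-- growth of a polynomial -/
theorem growth (p : ℤ[X]) (hp : 2 ≤ p.natDegree) : ∃ (A Z : ℕ), 1 ≤ A ∧ ∀ z : ℕ, Z ≤ z →
    z ^ p.natDegree ≤ 2 * (p.eval (z : ℤ)).natAbs ∧ (p.eval (z : ℤ)).natAbs ≤ A * z ^ p.natDegree := by
  set P : ℝ[X] := p.map (Int.castRingHom ℝ) with hP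
  have hdeg : P.natDegree = p.natDegree := natDegree_map_eq_of_injective Int.cast_injective p
  have hlead : P.leadingCoeff = (p.leadingCoeff : ℝ) := by
    rw [hP, leadingCoeff_map_of_injective Int.cast_injective]; rfl
  have h0 : p.leadingCoeff ≠ 0 := by
    rw [Ne, leadingCoeff_eq_zero]
    rintro rfl
    simp at hp
  have hequiv := P.isEquivalent_atTop_lead
  have hb := hequiv.isLittleO.bound (c := 1 / 2) (by norm_num)
  rw [eventually_atTop] at hb
  obtain ⟨X0, hX0⟩ := hb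
  have habs : (1 : ℝ) ≤ |(p.leadingCoeff : ℝ)| := by
    rw [← Int.cast_abs]
    exact_mod_cast Int.one_le_abs h0
  refine ⟨2 * p.leadingCoeff.natAbs, ⌈X0⌉₊, ?_, fun z hz => ?_⟩
  · have := Int.natAbs_pos.2 h0
    omega
  · have hz' : X0 ≤ (z : ℝ) := Nat.ceil_le.1 hz
    have h1 := hX0 z hz'
    simp only [Pi.sub_apply] at h1
    rw [hdeg, hlead, Real.norm_eq_abs, Real.norm_eq_abs, abs_mul] at h1
    have hev : P.eval (z : ℝ) = ((p.eval (z : ℤ) : ℤ) : ℝ) := by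
      rw [hP, eval_map]
      simpa using eval₂_at_natCast (p := p) (Int.castRingHom ℝ) z
    rw [hev] at h1
    have hzpow : |(z : ℝ) ^ p.natDegree| = (z : ℝ) ^ p.natDegree := abs_of_nonneg (by positivity)
    rw [hzpow] at h1
    have hnn : (0 : ℝ) ≤ (z : ℝ) ^ p.natDegree := by positivity
    have h2 : |(p.leadingCoeff : ℝ) * (z : ℝ) ^ p.natDegree| = |(p.leadingCoeff : ℝ)| * (z : ℝ) ^ p.natDegree := by
      rw [abs_mul, hzpow]
    have hN : (((p.eval (z : ℤ)).natAbs : ℕ) : ℝ) = |((p.eval (z : ℤ) : ℤ) : ℝ)| := by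
      rw [Nat.cast_natAbs, Int.cast_abs]
    have hL : ((p.leadingCoeff.natAbs : ℕ) : ℝ) = |(p.leadingCoeff : ℝ)| := by
      rw [Nat.cast_natAbs, Int.cast_abs]
    have h3 := abs_sub_abs_le_abs_sub ((p.leadingCoeff : ℝ) * (z : ℝ) ^ p.natDegree) ((p.eval (z : ℤ) : ℤ) : ℝ)
    have h4 := abs_sub_abs_le_abs_sub ((p.eval (z : ℤ) : ℤ) : ℝ) ((p.leadingCoeff : ℝ) * (z : ℝ) ^ p.natDegree)
    rw [abs_sub_comm] at h3
    rw [h2] at h3 h4
    have h5 : (z : ℝ) ^ p.natDegree ≤ |(p.leadingCoeff : ℝ)| * (z : ℝ) ^ p.natDegree := by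
      nlinarith
    constructor
    · have : ((z ^ p.natDegree : ℕ) : ℝ) ≤ ((2 * (p.eval (z : ℤ)).natAbs : ℕ) : ℝ) := by
        push_cast
        rw [hN]
        linarith
      exact_mod_cast this
    · have : (((p.eval (z : ℤ)).natAbs : ℕ) : ℝ) ≤ ((2 * p.leadingCoeff.natAbs * z ^ p.natDegree : ℕ) : ℝ) := by
        push_cast
        rw [hN, hL]
        linarith
      exact_mod_cast this

theorem log_mul_two_pow {n : ℕ} (hn : n ≠ 0) (k : ℕ) :
    Nat.log 2 (n * 2 ^ k) = Nat.log 2 n + k := by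
  induction k with
  | zero => simp
  | succ k ih =>
    rw [pow_succ, ← mul_assoc, Nat.log_mul_base (by norm_num) (by positivity), ih]
    rfl

/-- the first colour -/
theorem col1 {x y : ℕ} (hy : 0 < y) (h1 : 8 * y < 5 * x) (h2 : x < 4 * y) :
    Nat.log 2 (x ^ 2) % 5 ≠ Nat.log 2 (y ^ 2) % 5 := by
  have hy2 : y ^ 2 ≠ 0 := by positivity
  have a1 : Nat.log 2 (y ^ 2) + 1 ≤ Nat.log 2 (x ^ 2) := by
    rw [← Nat.log_mul_base (b := 2) (by norm_num) hy2]
    apply Nat.log_mono_right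
    nlinarith
  have a2 : Nat.log 2 (x ^ 2) ≤ Nat.log 2 (y ^ 2) + 4 := by
    rw [← log_mul_two_pow hy2 4]
    apply Nat.log_mono_right
    nlinarith
  omega

/-- the second colour: `w` is of the order of `z ^ d` -/
theorem col2 (d B : ℕ) (hd : 2 ≤ d) (hB : 1 ≤ B) : ∃ Z : ℕ, ∀ z w : ℕ, Z ≤ z → z ^ d ≤ 4 * w →
    w ≤ B * z ^ d →
    Nat.log 2 ((Nat.log 2 w) ^ 2) % (Nat.log 2 (16 * d ^ 2) + 2) ≠
      Nat.log 2 ((Nat.log 2 z) ^ 2) % (Nat.log 2 (16 * d ^ 2) + 2) := by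
  refine ⟨2 ^ (4 + Nat.log 2 B + 2 * d), fun z w hz h1 h2 => ?_⟩
  set K := Nat.log 2 (16 * d ^ 2) with hK
  set l := Nat.log 2 z with hl
  have hz0 : z ≠ 0 := by
    rintro rfl
    have : 0 < 2 ^ (4 + Nat.log 2 B + 2 * d) := by positivity
    omega
  have hlge : 4 + Nat.log 2 B + 2 * d ≤ l := by
    have := Nat.log_mono_right (b := 2) hz
    rwa [Nat.log_pow (by norm_num)] at this
  have hw0 : w ≠ 0 := by
    rintro rfl
    have : 0 < z ^ d := by positivity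
    omega
  -- lower bound
  have hl1 : d * l ≤ Nat.log 2 w + 2 := by
    rw [← log_mul_two_pow hw0 2]
    have e1 : 2 ^ (d * l) ≤ z ^ d := by
      rw [mul_comm, pow_mul]
      exact Nat.pow_le_pow_left (Nat.pow_log_le_self 2 hz0) d
    have e2 : 2 ^ (d * l) ≤ w * 2 ^ 2 := by omega
    have := Nat.log_mono_right (b := 2) e2
    rwa [Nat.log_pow (by norm_num)] at this
  -- upper bound
  have hl2 : Nat.log 2 w ≤ Nat.log 2 B + 1 + d * (l + 1) := by
    have e1 : w < 2 ^ (Nat.log 2 B + 1) * 2 ^ (d * (l + 1)) := by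
      have e2 : z ^ d ≤ 2 ^ (d * (l + 1)) := by
        rw [mul_comm d, pow_mul]
        exact Nat.pow_le_pow_left (Nat.lt_pow_succ_log_self (by norm_num) z).le d
      have e3 : B < 2 ^ (Nat.log 2 B + 1) := Nat.lt_pow_succ_log_self (by norm_num) B
      calc w ≤ B * z ^ d := h2
        _ < 2 ^ (Nat.log 2 B + 1) * z ^ d := Nat.mul_lt_mul_of_pos_right e3 (by positivity)
        _ ≤ _ := Nat.mul_le_mul_left _ e2
    rw [← pow_add] at e1
    have := Nat.log_lt_of_lt_pow hw0 e1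
    omega
  have hl0 : l ^ 2 ≠ 0 := by
    have : 0 < l := by omega
    positivity
  have a1 : Nat.log 2 (l ^ 2) + 1 ≤ Nat.log 2 ((Nat.log 2 w) ^ 2) := by
    rw [← Nat.log_mul_base (b := 2) (by norm_num) hl0]
    apply Nat.log_mono_right
    have e : 2 * l ≤ Nat.log 2 w + 2 := le_trans (Nat.mul_le_mul_right l hd) hl1
    have e' : 8 ≤ l := by omega
    nlinarith
  have a2 : Nat.log 2 ((Nat.log 2 w) ^ 2) ≤ Nat.log 2 (l ^ 2) + (K + 1) := by
    rw [← log_mul_two_pow hl0]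
    apply Nat.log_mono_right
    have e : Nat.log 2 w ≤ 4 * d * l := by
      have e1 : Nat.log 2 B + 1 + d * (l + 1) = Nat.log 2 B + 1 + d * l + d := by ring
      have e2 : Nat.log 2 B + 1 + d ≤ l := by omega
      have e3 : l ≤ d * l := Nat.le_mul_of_pos_left _ (by omega)
      have e4 : 4 * d * l = d * l + d * l + d * l + d * l := by ring
      omega
    calc (Nat.log 2 w) ^ 2 ≤ (4 * d * l) ^ 2 := Nat.pow_le_pow_left e 2
      _ = l ^ 2 * (16 * d ^ 2) := by ring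
      _ ≤ l ^ 2 * 2 ^ (K + 1) := Nat.mul_le_mul_left _ (Nat.lt_pow_succ_log_self (by norm_num) _).le
  intro h
  have h3 := (Nat.modEq_iff_dvd' (by omega : Nat.log 2 (l ^ 2) ≤ Nat.log 2 ((Nat.log 2 w) ^ 2))).1
    (show Nat.log 2 (l ^ 2) ≡ Nat.log 2 ((Nat.log 2 w) ^ 2) [MOD (K + 2)] from h.symm)
  have h4 := Nat.le_of_dvd (by omega) h3
  omega

/-- the equation `x - 2 y = p z` for nonlinear `p`: a finite colouring without monochromatic
solutions apart from `x = y = z` -/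
theorem nonlinear (p : ℤ[X]) (hp : 2 ≤ p.natDegree)
    (hno : ∀ t : ℕ, 0 < t → p.eval (t : ℤ) ≠ -t) :
    ∃ (κ : Type) (_ : Finite κ) (c : ℕ → κ), ∀ x y z : ℕ, 0 < x → 0 < y → 0 < z →
      c x = c y → c y = c z → (x : ℤ) - 2 * y ≠ p.eval (z : ℤ) := by
  obtain ⟨A, Z1, hA, hg⟩ := growth p hp
  obtain ⟨Z2, hZ2⟩ := col2 p.natDegree (5 * A) hp (by omega)
  set Z := max Z1 Z2 + 1 with hZ
  set K := Nat.log 2 (16 * p.natDegree ^ 2) with hK
  refine ⟨Fin (Z + 1) × Fin 5 × Fin (K + 2), inferInstance, fun n =>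
    (⟨min n Z, by omega⟩, ⟨Nat.log 2 (n ^ 2) % 5, Nat.mod_lt _ (by norm_num)⟩,
      ⟨Nat.log 2 ((Nat.log 2 n) ^ 2) % (K + 2), Nat.mod_lt _ (by omega)⟩), ?_⟩
  intro x y z hx hy hz h1 h2 heq
  simp only [Prod.mk.injEq, Fin.mk.injEq] at h1 h2
  obtain ⟨h1a, h1b, h1c⟩ := h1
  obtain ⟨h2a, h2b, h2c⟩ := h2
  -- small numbers
  by_cases hsm : z < Z
  · have hy' : y = z := by omega
    have hx' : x = z := by omega
    subst hy' hx'
    exact hno x hx (by linarith)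
  have hzZ : Z ≤ z := by omega
  have hz1 : Z1 ≤ z := by omega
  have hz2 : Z2 ≤ z := by omega
  obtain ⟨g1, g2⟩ := hg z hz1
  have hzp : 0 < z ^ p.natDegree := by positivity
  have hxz : x ≠ 0 := by omega
  -- comparability of `w` with `z ^ d` is impossible for `w = x` and `w = y`
  have hX : ¬ (z ^ p.natDegree ≤ 4 * x ∧ x ≤ 5 * A * z ^ p.natDegree) := by
    rintro ⟨e1, e2⟩
    exact hZ2 z x hz2 e1 e2 (by rw [h1c, h2c])
  have hY : ¬ (z ^ p.natDegree ≤ 4 * y ∧ y ≤ 5 * A * z ^ p.natDegree) := by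
    rintro ⟨e1, e2⟩
    exact hZ2 z y hz2 e1 e2 h2c
  have hXY : ¬ (8 * y < 5 * x ∧ x < 4 * y) := by
    rintro ⟨e1, e2⟩
    exact col1 hy e1 e2 h1b
  set P := (p.eval (z : ℤ)).natAbs with hP
  have e5 : 5 * A * z ^ p.natDegree = 5 * (A * z ^ p.natDegree) := by ring
  rw [e5] at hX hY
  rcases Int.natAbs_eq (p.eval (z : ℤ)) with hs | hs
  · rw [hs, ← hP] at heq
    have hxe : x = 2 * y + P := by omega
    by_cases hc : 2 * y ≤ P
    · exact hX ⟨by omega, by omega⟩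
    · exact hXY ⟨by omega, by omega⟩
  · rw [hs, ← hP] at heq
    have hxe : x + P = 2 * y := by omega
    by_cases hc : x ≤ 4 * P
    · exact hY ⟨by omega, by omega⟩
    · exact hXY ⟨by omega, by omega⟩

end Pool.Agent.N475.SizeCol
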