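import Pool.Agent.N475.Brauer
import Pool.Agent.N475.SizeCol
import Pool.Agent.N475.DigitCol

set_option autoImplicit false

namespace Pool.Agent.N475.XTwoY

open Polynomial

/-- colourings of `ℕ` with values in any finite type suffice -/
theorem transfer (p : ℤ[X])
    (h : ∀ (r : ℕ) (c : ℕ+ → Fin r), ∃ x y z : ℕ+, c x = c y ∧ c y = c z ∧
      ((x : ℕ) : ℤ) - 2 * ((y : ℕ) : ℤ) = p.eval ((z : ℕ) : ℤ))
    (κ : Type) [Finite κ] (c : ℕ → κ) : ∃ x y z : ℕ, 0 < x ∧ 0 < y ∧ 0 < z ∧ c x = c y ∧ c y = c z ∧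
      (x : ℤ) - 2 * y = p.eval (z : ℤ) := by
  obtain ⟨n, ⟨e⟩⟩ := Finite.exists_equiv_fin κ
  obtain ⟨x, y, z, h1, h2, h3⟩ := h n fun m => e (c m)
  exact ⟨x, y, z, x.pos, y.pos, z.pos, e.injective h1, e.injective h2, h3⟩

theorem main (p : ℤ[X]) (hp : p.eval 0 = 0) :
    (∀ (r : ℕ) (c : ℕ+ → Fin r), ∃ x y z : ℕ+, c x = c y ∧ c y = c z ∧
      ((x : ℕ) : ℤ) - 2 * ((y : ℕ) : ℤ) = p.eval ((z : ℕ) : ℤ)) ↔
      p = X ∨ p = -2 * X ∨ ∃ t : ℕ, 0 < t ∧ p.eval (t : ℤ) = -(t : ℤ) := by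
  constructor
  · intro h
    by_contra hcon
    push Not at hcon
    obtain ⟨h1, h2, h3⟩ := hcon
    by_cases hd : 2 ≤ p.natDegree
    · obtain ⟨κ, _, c, hc⟩ := SizeCol.nonlinear p hd h3
      obtain ⟨x, y, z, hx, hy, hz, a, b, e⟩ := transfer p h κ c
      exact hc x y z hx hy hz a b e
    · obtain ⟨a, ha⟩ : ∃ a : ℤ, p = C a * X := by
        refine ⟨p.coeff 1, ?_⟩
        have h4 := eq_X_add_C_of_natDegree_le_one (p := p) (by omega)
        have h5 : p.coeff 0 = 0 := by rw [coeff_zero_eq_eval_zero, hp]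
        rw [h5] at h4
        simpa using h4
      have hev : ∀ z : ℤ, p.eval z = a * z := fun z => by rw [ha]; simp
      have a1 : a ≠ 1 := by
        rintro rfl
        exact h1 (by rw [ha]; simp)
      have a2 : a ≠ -2 := by
        rintro rfl
        exact h2 (by rw [ha]; simp)
      have a3 : a ≠ -1 := by
        rintro rfl
        exact h3 1 one_pos (by rw [hev]; norm_num)
      by_cases a0 : a = 0
      · obtain ⟨κ, _, c, hc⟩ := DigitCol.double
        obtain ⟨x, y, z, hx, hy, hz, b, b', e⟩ := transfer p h κ c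
        rw [hev, a0, zero_mul] at e
        exact hc x y z hx hy hz b b' e
      · obtain ⟨κ, _, c, hc⟩ := DigitCol.linear a a0 a1 a3 a2
        obtain ⟨x, y, z, hx, hy, hz, b, b', e⟩ := transfer p h κ c
        rw [hev] at e
        exact hc x y z hx hy hz b b' e
  · rintro (rfl | rfl | ⟨t, ht, he⟩) r c
    · obtain ⟨a, d, ha, hd, h⟩ := Brauer.brauer (Option (Fin r)) 2 1 one_pos
        (fun n => if hn : 0 < n then some (c ⟨n, hn⟩) else none)
      have h0 := h 0 (by norm_num)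
      have h2 := h 2 le_rfl
      have p0 : 0 < a + 0 * d := by omega
      have p2 : 0 < a + 2 * d := by omega
      have p1 : 0 < 1 * d := by omega
      simp only [dif_pos p0, dif_pos p1, dif_pos p2, Option.some.injEq] at h0 h2
      refine ⟨⟨_, p2⟩, ⟨_, p1⟩, ⟨_, p0⟩, h2, h0.symm, ?_⟩
      simp
    · obtain ⟨a, d, ha, hd, h⟩ := Brauer.brauer (Option (Fin r)) 2 2 two_pos
        (fun n => if hn : 0 < n then some (c ⟨n, hn⟩) else none)
      have h0 := h 0 (by norm_num)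
      have h2 := h 1 (by norm_num)
      have p0 : 0 < a + 0 * d := by omega
      have p2 : 0 < a + 1 * d := by omega
      have p1 : 0 < 2 * d := by omega
      simp only [dif_pos p0, dif_pos p1, dif_pos p2, Option.some.injEq] at h0 h2
      refine ⟨⟨_, p1⟩, ⟨_, p2⟩, ⟨_, p0⟩, h2.symm, h2.trans h0.symm, ?_⟩
      simp
      ring
    · refine ⟨⟨t, ht⟩, ⟨t, ht⟩, ⟨t, ht⟩, rfl, rfl, ?_⟩
      rw [PNat.mk_coe, he]
      ring

end Pool.Agent.N475.XTwoY
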